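import Pool.Agent.T9h30.BF.Ab2

/-!
# The cyclic fields again
-/

set_option autoImplicit false
set_option linter.all false

open NumberField IsDedekindDomain Filter WeierstrassCurve

namespace Pool.Agent.T9h30.BF

theorem one2 (hcyc : StCyc) {A B : ℤ} (hΔ : 4 * A ^ 3 + 27 * B ^ 2 ≠ 0) {N l : ℕ}
    (hlP : l ∈ P2 A B N) :
    ∃ (K : Type) (_ : Field K) (_ : NumberField K),
      IsGalois ℚ K ∧ IsCyclic (K ≃ₐ[ℚ] K) ∧ Module.finrank ℚ K = 2 ^ N ∧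
      (∀ q : ℕ, q.Prime → (q : ℤ) ∣ NumberField.discr K → q = l) ∧
      (∀ v : HeightOneSpectrum (𝓞 K),
        ((2 * (⟨0, 0, 0, A, B⟩ : WeierstrassCurve ℤ).Δ : ℤ) : 𝓞 K) ∈ v.asIdeal →
        (Ideal.absNorm v.asIdeal).Prime) ∧ ∀ w : InfinitePlace K, w.IsReal := by
  have hD0 : (2 * (⟨0, 0, 0, A, B⟩ : WeierstrassCurve ℤ).Δ : ℤ) ≠ 0 := by
    rw [disc_eq]
    exact mul_ne_zero two_ne_zero (mul_ne_zero (by norm_num) hΔ)
  obtain ⟨hl, hl1, hnd, -⟩ := good2 hΔ hlP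
  obtain ⟨K, _, _, hG, hdeg, hcy, hram, hspl, hreal⟩ := hcyc N l hl hl1
  refine ⟨K, inferInstance, inferInstance, hG, hcy, hdeg, hram, fun v hv => ?_, hreal⟩
  obtain ⟨q, hq, hqd, hqv⟩ := exists_char v hv hD0
  have hql : q ≠ l := by
    rintro rfl
    exact hnd hqd
  have hqm : q ∈ (2 * (⟨0, 0, 0, A, B⟩ : WeierstrassCurve ℤ).Δ).natAbs.primeFactors := by
    rw [Nat.mem_primeFactors]
    exact ⟨hq, Int.natCast_dvd.1 hqd, Int.natAbs_ne_zero.2 hD0⟩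
  obtain ⟨x, hx⟩ := hlP.2.2.2.2 q hqm
  rw [hspl q hq hql ⟨x ^ 2, by rw [← pow_mul, ← pow_succ']; exact hx⟩ v hqv]
  exact hq

end Pool.Agent.T9h30.BF
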