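import Pool.Agent.N874.PM.Stm
import Pool.Agent.TH115.GD.Gal
import Pool.Agent.TH841.NF.ShaN

/-!
# Comparison of two forms of the Tate-Shafarevich group

The library has the Tate-Shafarevich group with cocycles on the Galois group of a separable closure
(`ShaR`) and of an algebraic closure (`Sha`).
-/

set_option autoImplicit false
set_option linter.all false

open IsDedekindDomain NumberField WeierstrassCurve WeierstrassCurve.Affine
open scoped Classical

namespace Pool.Agent.T9h30.BF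

open Pool.Agent.TH115.GD

section conj

variable {k A B : Type} [Field k] [Field A] [Field B] [Algebra k A] [Algebra k B] (e : A ≃ₐ[k] B)

/-- conjugation with an isomorphism -/
def cj (σ : A ≃ₐ[k] A) : B ≃ₐ[k] B := (e.symm.trans σ).trans e

lemma cj_app (σ : A ≃ₐ[k] A) (x : A) : cj e σ (e x) = e (σ x) := by
  simp [cj]

lemma cj_mul (σ τ : A ≃ₐ[k] A) : cj e (σ * τ) = cj e σ * cj e τ := by
  ext x
  simp [cj]

lemma cj_cj (σ : A ≃ₐ[k] A) : cj e.symm (cj e σ) = σ := by
  ext x
  simp [cj]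

lemma cj_cont : Continuous (cj e) := by
  let φ : (A ≃ₐ[k] A) →* (B ≃ₐ[k] B) := MonoidHom.mk' (cj e) (cj_mul e)
  have h : Continuous φ := by
    refine continuous_of_continuousAt_one φ ?_
    intro U hU
    rw [map_one] at hU
    obtain ⟨E, hE, hEU⟩ := (krullTopology_mem_nhds_one_iff k B U).1 hU
    haveI := hE
    have hfd : FiniteDimensional k (E.map e.symm.toAlgHom) :=
      (E.equivMap e.symm.toAlgHom).toLinearEquiv.finiteDimensional
    have h1 : ((E.map e.symm.toAlgHom).fixingSubgroup : Set (A ≃ₐ[k] A)) ∈ nhds 1 :=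
      (krullTopology_mem_nhds_one_iff k A _).2 ⟨_, hfd, subset_rfl⟩
    refine Filter.mem_map.2 (Filter.mem_of_superset h1 ?_)
    intro σ hσ
    apply hEU
    rw [SetLike.mem_coe, IntermediateField.mem_fixingSubgroup_iff] at hσ ⊢
    intro x hx
    have h2 := hσ (e.symm x) ⟨x, hx, rfl⟩
    show e (σ (e.symm x)) = x
    rw [h2, AlgEquiv.apply_symm_apply]
  exact h

end conj

section main

variable {M : Type} [Field M] [NumberField M]

/-- the identity -/
noncomputable def ip (W : WeierstrassCurve M) (L : Type) [Field L] [Algebra M L] :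
    Pool.Agent.TH841.SH.D.Pt W L →+ Pt W L where
  toFun := fun P => P
  map_zero' := rfl
  map_add' := fun P Q => rfl

lemma ip_inj (W : WeierstrassCurve M) (L : Type) [Field L] [Algebra M L] :
    Function.Injective (ip W L) := fun P Q h => h

lemma ip_surj (W : WeierstrassCurve M) (L : Type) [Field L] [Algebra M L] (Q : Pt W L) :
    ∃ P, ip W L P = Q := ⟨Q, rfl⟩

lemma ip_act (W : WeierstrassCurve M) {L L' : Type} [Field L] [Field L'] [Algebra M L]
    [Algebra M L'] (φ : L →ₐ[M] L') (P : Pool.Agent.TH841.SH.D.Pt W L) :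
    ip W L' (Pool.Agent.TH841.SH.D.act W φ P) = act W φ (ip W L P) := rfl

/-- local triviality -/
lemma loc_gen {W : WeierstrassCurve M} (L : Type) [Field L] [Algebra M L]
    {f : Pool.Agent.TH841.SH.D.Coch W} (e : Sep M ≃ₐ[M] AlgebraicClosure M)
    (h : Pool.Agent.TH841.SH.D.LocTriv W L f) :
    LocTriv W L (Sep L) (fun σ : Sep M ≃ₐ[M] Sep M =>
      act W (e.symm : AlgebraicClosure M →ₐ[M] Sep M) (ip W _ (f (cj e σ)))) := by
  haveI : CharZero L := charZero_of_injective_algebraMap (algebraMap M L).injective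
  haveI : IsSepClosure L (AlgebraicClosure L) := inferInstance
  let eL : Sep L ≃ₐ[L] AlgebraicClosure L := IsSepClosure.equiv L (Sep L) (AlgebraicClosure L)
  let ι : AlgebraicClosure M →ₐ[M] AlgebraicClosure L := IsAlgClosed.lift
  obtain ⟨P0, hP0⟩ := h ι
  let εL : AlgebraicClosure L →ₐ[M] Sep L := AlgHom.restrictScalars M eL.symm.toAlgHom
  let ι' : Sep M →ₐ[M] Sep L := εL.comp (ι.comp e.toAlgHom)
  refine ⟨ι', act W εL (ip W _ P0), fun τ σ hτ => ?_⟩
  have h1 : ∀ x, (cj eL τ) (ι x) = ι ((cj e σ) x) := by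
    intro x
    show eL (τ (eL.symm (ι x))) = ι (e (σ (e.symm x)))
    have h2 := hτ (e.symm x)
    have h3 : ι' (e.symm x) = eL.symm (ι x) := by
      show eL.symm (ι (e (e.symm x))) = _
      rw [e.apply_symm_apply]
    rw [h3] at h2
    rw [h2]
    show eL (eL.symm (ι (e (σ (e.symm x))))) = _
    rw [eL.apply_symm_apply]
  have h4 := hP0 (cj eL τ) (cj e σ) h1
  have h5 : act W ι (ip W _ (f (cj e σ))) =
      act W (AlgHom.restrictScalars M (cj eL τ).toAlgHom) (ip W _ P0) - ip W _ P0 := h4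
  have h6 := congrArg (act W εL) h5
  rw [map_sub, act_act, act_act] at h6
  have e1 : (ι'.restrictScalars M).comp (e.symm : AlgebraicClosure M →ₐ[M] Sep M) =
      εL.comp ι := by
    ext x
    show eL.symm (ι (e (e.symm x))) = eL.symm (ι x)
    rw [e.apply_symm_apply]
  have e2 : εL.comp (AlgHom.restrictScalars M (cj eL τ).toAlgHom) = (rs M τ).comp εL := by
    ext x
    show eL.symm (eL (τ (eL.symm x))) = τ (eL.symm x)
    rw [eL.symm_apply_apply]
  rw [act_act, e1, h6, e2, act_act]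

/-- **The 2-primary part of the Tate-Shafarevich group is zero.** -/
theorem brg {W : WeierstrassCurve M} (hS : Pool.Agent.N874.PM.ShaR (𝓞 M) W) (k : ℕ)
    (s : Pool.Agent.TH841.NF.D.Sha W) (hs : (2 ^ k : ℕ) • s = 0) : s = 0 := by
  obtain ⟨f, rfl⟩ := QuotientAddGroup.mk_surjective
    (s := (Pool.Agent.TH841.SH.D.cob W).addSubgroupOf (Pool.Agent.TH841.NF.D.shaCoc W)) s
  have h2 : (QuotientAddGroup.mk ((2 ^ k : ℕ) • f) : (Pool.Agent.TH841.NF.D.shaCoc W) ⧸
    (Pool.Agent.TH841.SH.D.cob W).addSubgroupOf (Pool.Agent.TH841.NF.D.shaCoc W)) = 0 := hs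
  rw [QuotientAddGroup.eq_zero_iff, AddSubgroup.mem_addSubgroupOf] at h2
  obtain ⟨P, hP⟩ := h2
  have hP' : ∀ σ, (2 ^ k : ℕ) • f.1 σ = Pool.Agent.TH841.SH.D.act W σ.toAlgHom P - P := hP
  haveI : IsSepClosure M (AlgebraicClosure M) := inferInstance
  let e : Sep M ≃ₐ[M] AlgebraicClosure M := IsSepClosure.equiv M (Sep M) (AlgebraicClosure M)
  let ε : AlgebraicClosure M →ₐ[M] Sep M := e.symm.toAlgHom
  let ε' : Sep M →ₐ[M] AlgebraicClosure M := e.toAlgHom
  have hεε : ∀ R : Pt W (AlgebraicClosure M), act W ε' (act W ε R) = R := by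
    intro R
    rw [act_act]
    have e1 : ε'.comp ε = AlgHom.id M _ := AlgHom.ext fun x => e.apply_symm_apply x
    rw [e1]
    exact Point.map_id R
  have nat : ∀ (σ : Sep M ≃ₐ[M] Sep M) (R : Pt W (AlgebraicClosure M)),
      act W ε (act W (rs M (cj e σ)) R) = act W (rs M σ) (act W ε R) := by
    intro σ R
    rw [act_act, act_act]
    congr 2
    ext x
    show e.symm (e (σ (e.symm x))) = σ (e.symm x)
    rw [e.symm_apply_apply]
  let g : (Sep M ≃ₐ[M] Sep M) → Pt W (Sep M) := fun σ => act W ε (ip W _ (f.1 (cj e σ)))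
  have hfc : Pool.Agent.TH841.SH.D.IsCoc W f.1 := f.2.1
  have hg : IsCoc W g := by
    refine ⟨?_, fun σ τ => ?_⟩
    · exact (hfc.1.comp_continuous (cj_cont e)).comp fun R => act W ε (ip W _ R)
    · show act W ε (ip W _ (f.1 (cj e (σ * τ)))) = act W ε (ip W _ (f.1 (cj e σ))) +
        act W (rs M σ) (act W ε (ip W _ (f.1 (cj e τ))))
      rw [cj_mul, hfc.2, map_add, map_add, ← nat]
      rfl
  have hl : ∀ v : HeightOneSpectrum (𝓞 M),
      LocTriv W (Comp (𝓞 M) M v) (Sep (Comp (𝓞 M) M v)) g := by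
    intro v
    have h3 : Pool.Agent.TH841.SH.D.LocTriv W (Comp (𝓞 M) M v) f.1 := f.2.2.1 v
    exact loc_gen (Comp (𝓞 M) M v) e h3
  obtain ⟨Q, hQ⟩ := hS g hg hl ⟨k, act W ε (ip W _ P), fun σ => by
    show 2 ^ k • act W ε (ip W _ (f.1 (cj e σ))) = _
    rw [← nat, ← map_sub, ← map_nsmul, ← map_nsmul, hP']
    rfl⟩
  refine (QuotientAddGroup.eq_zero_iff f).2 ?_
  rw [AddSubgroup.mem_addSubgroupOf]
  obtain ⟨Q', hQ'⟩ := ip_surj W _ (act W ε' Q)
  refine ⟨Q', fun σ => ?_⟩
  apply ip_inj W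
  have h3 : act W ε' (g (cj e.symm σ)) = ip W _ (f.1 σ) := by
    show act W ε' (act W ε (ip W _ (f.1 (cj e (cj e.symm σ))))) = _
    rw [hεε]
    congr 2
    have h6 : cj e (cj e.symm σ) = σ := cj_cj e.symm σ
    exact congrArg (fun z => f.1 z) h6
  have h4 := hQ (cj e.symm σ)
  have h5 : ip W _ (f.1 σ) = act W (rs M σ) (act W ε' Q) - act W ε' Q := by
    rw [← h3, h4, map_sub, act_act, act_act]
    congr 2
    congr 1
    ext x
    show e (e.symm (σ (e x))) = σ (e x)
    rw [e.apply_symm_apply]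
  rw [map_sub, ip_act, hQ']
  exact h5

end main

end Pool.Agent.T9h30.BF
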