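import Pool.Agent.T9h30.BF.Many
import Pool.Agent.T9h70.BF.Grp
import Pool.Agent.T9h89.BF.Split

/-!
# Abelian extensions of `ℚ` of 2-power exponent in which the bad primes split, and which are totally real
-/

set_option autoImplicit false
set_option linter.all false

open NumberField IsDedekindDomain Filter WeierstrassCurve

namespace Pool.Agent.T9h30.BF

section cyc

variable {m : ℕ} [NeZero m] {C : Type} [Field C] [NumberField C] [IsCyclotomicExtension {m} ℚ C]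

/-- the automorphism `ζ ↦ ζ ^ x` and its powers -/
lemma aut_pow (n : ℕ) (x : (ZMod m)ˣ) : ∃ t : C ≃ₐ[ℚ] C, ∀ k : ℕ,
    ((k : ℕ) : ZMod m) = ((x ^ n : (ZMod m)ˣ) : ZMod m) →
      (t ^ n) (IsCyclotomicExtension.zeta m ℚ C) = (IsCyclotomicExtension.zeta m ℚ C) ^ k := by
  have hirr : Irreducible (Polynomial.cyclotomic m ℚ) :=
    Polynomial.cyclotomic.irreducible_rat (NeZero.pos m)
  set E := IsCyclotomicExtension.autEquivPow C hirr with hE
  have hspec : ∀ s : C ≃ₐ[ℚ] C, (IsCyclotomicExtension.zeta m ℚ C) ^ ((E s : ZMod m)).val =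
      s (IsCyclotomicExtension.zeta m ℚ C) := fun s =>
    (IsCyclotomicExtension.zeta_spec m ℚ C).autToPow_spec ℚ s
  refine ⟨E.symm x, fun k hk => ?_⟩
  rw [← hspec, map_pow, MulEquiv.apply_symm_apply, ← hk, ZMod.val_natCast]
  have hz : (IsCyclotomicExtension.zeta m ℚ C) ^ m = 1 :=
    (IsCyclotomicExtension.zeta_spec m ℚ C).pow_eq_one
  conv_rhs => rw [← Nat.mod_add_div k m, pow_add, pow_mul, hz, one_pow, mul_one]

variable (F : IntermediateField ℚ C) [IsGalois ℚ F] {n : ℕ} (hexp : ∀ t : F ≃ₐ[ℚ] F, t ^ n = 1)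

include hexp in
lemma pow_fix (t : C ≃ₐ[ℚ] C) (x : C) (hx : x ∈ F) : (t ^ n) x = x := by
  have h1 : AlgEquiv.restrictNormalHom F (t ^ n) = 1 := by rw [map_pow, hexp]
  have h2 := AlgEquiv.restrictNormal_commutes (t ^ n) F ⟨x, hx⟩
  have h3 : (t ^ n).restrictNormal F = 1 := h1
  rw [h3] at h2
  exact h2.symm

include hexp in
/-- the residue degrees -/
lemma split_int (hn : n ≠ 0) {q : ℕ} (hq : q.Prime) (hqm : q.Coprime m)
    (hx : ∃ x : ZMod m, x ^ n = (q : ZMod m)) (v : HeightOneSpectrum (𝓞 F))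
    (hv : (q : 𝓞 F) ∈ v.asIdeal) : Ideal.absNorm v.asIdeal = q := by
  obtain ⟨x, hx⟩ := hx
  have hu : IsUnit x := by
    rw [← isUnit_pow_iff hn, hx]
    exact (ZMod.isUnit_iff_coprime q m).2 hqm
  obtain ⟨y, rfl⟩ := hu
  obtain ⟨t, ht⟩ := aut_pow (C := C) n y
  exact Pool.Agent.T9h89.BF.split (IsCyclotomicExtension.zeta_spec m ℚ C) F (t ^ n)
    (fun z hz => pow_fix F hexp t z hz) q hq (ht q (by rw [Units.val_pow_eq_pow_val, hx])) v hv

include hexp in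
/-- the infinite places -/
lemma real_int (hn : n ≠ 0) (hx : ∃ x : ZMod m, x ^ n = -1) (w : InfinitePlace F) : w.IsReal := by
  obtain ⟨x, hx⟩ := hx
  have hu : IsUnit x := by
    rw [← isUnit_pow_iff hn, hx]
    exact isUnit_one.neg
  obtain ⟨y, rfl⟩ := hu
  obtain ⟨t, ht⟩ := aut_pow (C := C) n y
  refine Pool.Agent.T9h89.BF.real (IsCyclotomicExtension.zeta_spec m ℚ C) F (t ^ n)
    (fun z hz => pow_fix F hexp t z hz) ?_ w
  have hz : (IsCyclotomicExtension.zeta m ℚ C) ^ m = 1 :=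
    (IsCyclotomicExtension.zeta_spec m ℚ C).pow_eq_one
  have h1 : 1 ≤ m := NeZero.one_le
  rw [ht (m - 1) (by rw [Units.val_pow_eq_pow_val, hx, Nat.cast_sub h1, Nat.cast_one,
    ZMod.natCast_self, zero_sub])]
  refine eq_inv_of_mul_eq_one_left ?_
  rw [← pow_succ, Nat.sub_add_cancel h1, hz]

/-- the discriminant -/
lemma discr_int (F : IntermediateField ℚ C) {q : ℕ} (hq : q.Prime)
    (h : (q : ℤ) ∣ NumberField.discr F) : q ∣ m := by
  have h1 : NumberField.discr F ∣ NumberField.discr C := NumberField.discr_dvd_discr F C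
  have h2 : q ∣ (NumberField.discr C).natAbs := Int.natCast_dvd.1 (h.trans h1)
  have h3 := IsCyclotomicExtension.Rat.natAbs_discr m C
  have h4 : (NumberField.discr C).natAbs ∣ m ^ m.totient := by
    rw [h3]
    exact Nat.div_dvd_of_dvd (Nat.prod_primeFactors_pow_totient_ediv_dvd (NeZero.pos m))
  exact hq.dvd_of_dvd_pow (h2.trans h4)

end cyc

section transport

variable {F F' : Type} [Field F] [NumberField F] [Field F'] [NumberField F']

/-- the residue degrees and isomorphisms -/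
lemma norm_transport (e : F ≃ₐ[ℚ] F') {q : ℕ}
    (h : ∀ v : HeightOneSpectrum (𝓞 F'), (q : 𝓞 F') ∈ v.asIdeal → Ideal.absNorm v.asIdeal = q)
    (v : HeightOneSpectrum (𝓞 F)) (hv : (q : 𝓞 F) ∈ v.asIdeal) : Ideal.absNorm v.asIdeal = q := by
  let σ : 𝓞 F' ≃+* 𝓞 F := RingOfIntegers.mapRingEquiv (e.symm : F' ≃+* F)
  have hp : (v.asIdeal.comap (σ : 𝓞 F' →+* 𝓞 F)).IsPrime := Ideal.comap_isPrime _ _
  have hne : v.asIdeal.comap (σ : 𝓞 F' →+* 𝓞 F) ≠ ⊥ := by
    obtain ⟨x, hx, hx0⟩ := Submodule.exists_mem_ne_zero_of_ne_bot v.ne_bot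
    intro h0
    have h1 : σ.symm x ∈ v.asIdeal.comap (σ : 𝓞 F' →+* 𝓞 F) := by
      rw [Ideal.mem_comap]
      show σ (σ.symm x) ∈ v.asIdeal
      rw [RingEquiv.apply_symm_apply]
      exact hx
    rw [h0, Ideal.mem_bot] at h1
    apply hx0
    rw [← RingEquiv.apply_symm_apply σ x, h1, map_zero]
  have h2 := h ⟨_, hp, hne⟩ (by
    show (q : 𝓞 F') ∈ v.asIdeal.comap (σ : 𝓞 F' →+* 𝓞 F)
    rw [Ideal.mem_comap, map_natCast]
    exact hv)
  rw [← h2, Ideal.absNorm_apply, Ideal.absNorm_apply, Submodule.cardQuot_apply,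
    Submodule.cardQuot_apply]
  refine (Nat.card_congr (Ideal.quotientEquiv (v.asIdeal.comap (σ : 𝓞 F' →+* 𝓞 F)) v.asIdeal σ
    ?_).toEquiv).symm
  exact (Ideal.map_comap_of_surjective (σ : 𝓞 F' →+* 𝓞 F) σ.surjective v.asIdeal).symm

lemma real_transport (e : F ≃ₐ[ℚ] F') (h : ∀ w : InfinitePlace F', w.IsReal) (w : InfinitePlace F) :
    w.IsReal :=
  (InfinitePlace.isReal_comap_iff (e.symm : F' ≃+* F)).1 (h _)

end transport

/-- `- 1` is a `2 ^ N`-th power modulo the prime `l = 1` modulo `2 ^ (N + 1)` -/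
lemma neg_one_pow {N l : ℕ} (hl : l.Prime) (h : l % 2 ^ (N + 1) = 1) :
    ∃ x : ZMod l, x ^ 2 ^ N = ((l - 1 : ℕ) : ZMod l) := by
  have : Fact l.Prime := ⟨hl⟩
  have e1 : ((l - 1 : ℕ) : ZMod l) = -1 := by
    rw [Nat.cast_sub hl.one_lt.le, ZMod.natCast_self, Nat.cast_one, zero_sub]
  rw [e1]
  have h2 : 2 ^ (N + 1) ∣ l - 1 := (Nat.modEq_iff_dvd' hl.one_lt.le).1 (by
    unfold Nat.ModEq
    rw [h, Nat.mod_eq_of_lt (Nat.one_lt_two_pow (by omega))])
  obtain ⟨m, hm⟩ := h2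
  obtain ⟨g, hg⟩ := IsCyclic.exists_ofOrder_eq_natCard (α := (ZMod l)ˣ)
  have hcard : Nat.card (ZMod l)ˣ = l - 1 := by
    rw [Nat.card_eq_fintype_card, ZMod.card_units_eq_totient, Nat.totient_prime hl]
  rw [hcard] at hg
  refine ⟨((g ^ m : (ZMod l)ˣ) : ZMod l), ?_⟩
  have hl1 : 1 < l := hl.one_lt
  have hm0 : 0 < m := by
    rcases Nat.eq_zero_or_pos m with h3 | h3
    · rw [h3] at hm
      omega
    · exact h3
  have h3 : (g ^ m) ^ 2 ^ N * (g ^ m) ^ 2 ^ N = 1 := by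
    rw [← pow_mul, ← pow_add, show m * 2 ^ N + m * 2 ^ N = l - 1 by rw [hm]; ring, ← hg,
      pow_orderOf_eq_one]
  have h4 : (g ^ m) ^ 2 ^ N ≠ 1 := by
    rw [← pow_mul]
    intro h5
    have h6 := orderOf_dvd_of_pow_eq_one h5
    rw [hg] at h6
    have h7 := Nat.le_of_dvd (by positivity) h6
    rw [hm, pow_succ] at h7
    nlinarith [Nat.one_le_two_pow (n := N), Nat.mul_pos (pow_pos (show 0 < 2 by norm_num) N) hm0]
  rcases mul_self_eq_one_iff.1 (show ((((g ^ m) ^ 2 ^ N : (ZMod l)ˣ) : ZMod l)) *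
      (((g ^ m) ^ 2 ^ N : (ZMod l)ˣ) : ZMod l) = 1 by rw [← Units.val_mul, h3, Units.val_one])
    with h5 | h5
  · exact absurd (Units.ext h5) h4
  · rw [← h5]
    push_cast
    rfl

/-- the set of the primes -/
def P2 (A B : ℤ) (N : ℕ) : Set ℕ :=
  {l : ℕ | Cnd A B N (2 * (⟨0, 0, 0, A, B⟩ : WeierstrassCurve ℤ).Δ).natAbs.primeFactors l}

/-- **The fields.** -/
theorem ab2 {A B : ℤ} (hΔ : 4 * A ^ 3 + 27 * B ^ 2 ≠ 0) (N : ℕ) (S : Finset ℕ)
    (hS : ∀ l ∈ S, l ∈ P2 A B N) (F : Type) [Field F] [NumberField F]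
    (hF : Nonempty (F →ₐ[ℚ] CyclotomicField (∏ l ∈ S, l) ℚ))
    (hexp : ∀ t : F ≃ₐ[ℚ] F, t ^ 2 ^ N = 1) :
    IsGalois ℚ F ∧ (∃ k, Module.finrank ℚ F = 2 ^ k) ∧
    (∀ q : ℕ, q.Prime → (q : ℤ) ∣ NumberField.discr F → q ∈ S) ∧
    (∀ v : HeightOneSpectrum (𝓞 F),
        ((2 * (⟨0, 0, 0, A, B⟩ : WeierstrassCurve ℤ).Δ : ℤ) : 𝓞 F) ∈ v.asIdeal →
        (Ideal.absNorm v.asIdeal).Prime) ∧ ∀ w : InfinitePlace F, w.IsReal := by
  have hD0 : (2 * (⟨0, 0, 0, A, B⟩ : WeierstrassCurve ℤ).Δ : ℤ) ≠ 0 := by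
    rw [disc_eq]
    exact mul_ne_zero two_ne_zero (mul_ne_zero (by norm_num) hΔ)
  set m := ∏ l ∈ S, l with hm
  have hm0 : m ≠ 0 := Finset.prod_ne_zero_iff.2 fun l hl => (hS l hl).1.ne_zero
  have hNZ : NeZero m := ⟨hm0⟩
  have hcyc : IsCyclotomicExtension {m} ℚ (CyclotomicField m ℚ) := by
    haveI : NeZero ((m : ℕ) : ℚ) := ⟨by exact_mod_cast hm0⟩
    exact CyclotomicField.isCyclotomicExtension m ℚ
  obtain ⟨e⟩ := hF
  have hab : IsAbelianGalois ℚ (CyclotomicField m ℚ) :=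
    IsCyclotomicExtension.isAbelianGalois {m} ℚ (CyclotomicField m ℚ)
  have hG : IsGalois ℚ F := by
    letI : Algebra F (CyclotomicField m ℚ) := e.toRingHom.toAlgebra
    have ht : IsScalarTower ℚ F (CyclotomicField m ℚ) :=
      IsScalarTower.of_algebraMap_eq fun x => (e.commutes x).symm
    have hab2 : IsAbelianGalois ℚ F := IsAbelianGalois.tower_bot ℚ F (CyclotomicField m ℚ)
    infer_instance
  let F' : IntermediateField ℚ (CyclotomicField m ℚ) := e.fieldRange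
  let ε : F ≃ₐ[ℚ] F' := AlgEquiv.ofInjectiveField e
  have hG' : IsGalois ℚ F' := IsGalois.of_algEquiv ε
  have hexp' : ∀ t : F' ≃ₐ[ℚ] F', t ^ 2 ^ N = 1 := by
    intro t
    rw [← MulEquiv.apply_symm_apply (AlgEquiv.autCongr ε) t, ← map_pow, hexp, map_one]
  have hn : (2 : ℕ) ^ N ≠ 0 := by positivity
  have hsq : Squarefree m := by
    rw [hm]
    exact Finset.squarefree_prod_of_pairwise_isCoprime (fun l hl l' hl' hne =>
      Nat.isCoprime_iff_coprime.2 ((Nat.coprime_primes (hS l hl).1 (hS l' hl').1).2 hne) |>.elim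
        fun x hx => (Nat.coprime_iff_isRelPrime.1
          ((Nat.coprime_primes (hS l hl).1 (hS l' hl').1).2 hne)))
      fun l hl => (hS l hl).1.prime.squarefree
  have hmem : ∀ l : ℕ, l.Prime → l ∣ m → l ∈ S := by
    intro l hl hlm
    obtain ⟨l', hl', hll⟩ := (Prime.dvd_finset_prod_iff hl.prime _).1 (by rw [← hm]; exact hlm)
    rwa [(Nat.prime_dvd_prime_iff_eq hl (hS l' hl').1).1 hll]
  have hnd : ∀ l ∈ S, ¬ (l : ℤ) ∣ 2 * (⟨0, 0, 0, A, B⟩ : WeierstrassCurve ℤ).Δ := by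
    intro l hlS
    obtain ⟨hl, hl1, hl2, -, -⟩ := hS l hlS
    have hlodd : l ≠ 2 := by
      rintro rfl
      rw [pow_succ] at hl1
      have h1 : 2 % (2 ^ N * 2) % 2 = 2 % 2 := Nat.mod_mod_of_dvd 2 (Dvd.intro_left _ rfl)
      rw [hl1] at h1
      omega
    rw [disc_eq]
    intro h
    have hp : Prime (l : ℤ) := Nat.prime_iff_prime_int.1 hl
    have e : (2 * (-16 * (4 * A ^ 3 + 27 * B ^ 2)) : ℤ) =
        (-16) * (2 * (4 * A ^ 3 + 27 * B ^ 2)) := by ring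
    rw [e] at h
    rcases hp.dvd_or_dvd h with h | h
    · have h16 : (l : ℤ) ∣ 2 ^ 4 := by
        have h5 := (dvd_neg.2 h)
        norm_num at h5 ⊢
        exact h5
      have h5 := hp.dvd_of_dvd_pow h16
      have h6 : l ∣ 2 := by exact_mod_cast h5
      exact hlodd ((Nat.prime_dvd_prime_iff_eq hl Nat.prime_two).1 h6)
    · exact hl2 h
  refine ⟨hG, Pool.Agent.T9h70.BF.grp 2 N Nat.prime_two F hexp, fun q hq hqd => ?_, fun v hv => ?_,
    real_transport ε (real_int (m := m) F' hexp' hn ?_)⟩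
  · rw [NumberField.discr_eq_discr_of_algEquiv F ε] at hqd
    exact hmem q hq (discr_int (m := m) F' hq hqd)
  · obtain ⟨q, hq, hqd, hqv⟩ := exists_char v hv hD0
    have hqm : q ∈ (2 * (⟨0, 0, 0, A, B⟩ : WeierstrassCurve ℤ).Δ).natAbs.primeFactors := by
      rw [Nat.mem_primeFactors]
      exact ⟨hq, Int.natCast_dvd.1 hqd, Int.natAbs_ne_zero.2 hD0⟩
    have hcop : q.Coprime m := by
      rw [hm]
      refine Nat.Coprime.prod_right fun l hl => (Nat.coprime_primes hq (hS l hl).1).2 ?_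
      rintro rfl
      exact hnd q hl hqd
    have hx := Pool.Agent.T9h70.BF.crt m (2 ^ N) q hsq fun l hl hlm => by
      obtain ⟨x, hx⟩ := (hS l (hmem l hl hlm)).2.2.2.2 q hqm
      exact ⟨x ^ 2, by rw [← pow_mul, ← pow_succ']; exact hx⟩
    rw [norm_transport ε (fun v' hv' => split_int F' hexp' hn hq hcop hx v' hv') v hqv]
    exact hq
  · have h1 : 1 ≤ m := Nat.one_le_iff_ne_zero.2 hm0
    obtain ⟨x, hx⟩ := Pool.Agent.T9h70.BF.crt m (2 ^ N) (m - 1) hsq fun l hl hlm => by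
      obtain ⟨x, hx⟩ := neg_one_pow hl (hS l (hmem l hl hlm)).2.1
      refine ⟨x, hx.trans ?_⟩
      rw [Nat.cast_sub h1, Nat.cast_sub hl.one_lt.le, ZMod.natCast_self,
        (ZMod.natCast_eq_zero_iff m l).2 hlm]
    refine ⟨x, hx.trans ?_⟩
    rw [Nat.cast_sub h1, ZMod.natCast_self, Nat.cast_one, zero_sub]

/-- the set of the primes has positive lower density -/
theorem dens2 {A B : ℤ} (hΔ : 4 * A ^ 3 + 27 * B ^ 2 ≠ 0)
    (hirr : ∀ x : ℚ, x ^ 3 + A * x + B ≠ 0) (N : ℕ) :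
    ∃ d : ℝ, 0 < d ∧ ∀ᶠ X : ℕ in atTop,
      d * Nat.primeCounting X ≤ {l : ℕ | l ≤ X ∧ l ∈ P2 A B N}.ncard :=
  exists_primes hΔ hirr N _

/-- the primes are good and have an odd number of points -/
theorem good2 {A B : ℤ} (hΔ : 4 * A ^ 3 + 27 * B ^ 2 ≠ 0) {N l : ℕ} (hl : l ∈ P2 A B N) :
    l.Prime ∧ l % 2 ^ (N + 1) = 1 ∧ ¬ (l : ℤ) ∣ 2 * (⟨0, 0, 0, A, B⟩ : WeierstrassCurve ℤ).Δ ∧
      Odd (Nat.card {P : ZMod l × ZMod l //
          ((⟨0, 0, 0, A, B⟩ : WeierstrassCurve ℤ).map (Int.castRingHom (ZMod l))).toAffine.Equation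
            P.1 P.2} + 1) := by
  obtain ⟨hl, hl1, hl2, hl3, -⟩ := hl
  refine ⟨hl, hl1, ?_, ?_⟩
  · have hlodd : l ≠ 2 := by
      rintro rfl
      rw [pow_succ] at hl1
      have h1 : 2 % (2 ^ N * 2) % 2 = 2 % 2 := Nat.mod_mod_of_dvd 2 (Dvd.intro_left _ rfl)
      rw [hl1] at h1
      omega
    rw [disc_eq]
    intro h
    have hp : Prime (l : ℤ) := Nat.prime_iff_prime_int.1 hl
    have e : (2 * (-16 * (4 * A ^ 3 + 27 * B ^ 2)) : ℤ) =
        (-16) * (2 * (4 * A ^ 3 + 27 * B ^ 2)) := by ring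
    rw [e] at h
    rcases hp.dvd_or_dvd h with h | h
    · have h16 : (l : ℤ) ∣ 2 ^ 4 := by
        have h5 := (dvd_neg.2 h)
        norm_num at h5 ⊢
        exact h5
      have h5 := hp.dvd_of_dvd_pow h16
      have h6 : l ∣ 2 := by exact_mod_cast h5
      exact hlodd ((Nat.prime_dvd_prime_iff_eq hl Nat.prime_two).1 h6)
    · exact hl2 h
  · have e : Nat.card {P : ZMod l × ZMod l //
        ((⟨0, 0, 0, A, B⟩ : WeierstrassCurve ℤ).map (Int.castRingHom (ZMod l))).toAffine.Equation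
          P.1 P.2} = Nat.card {P : ZMod l × ZMod l //
        P.2 ^ 2 = P.1 ^ 3 + (A : ZMod l) * P.1 + (B : ZMod l)} := by
      refine Nat.card_congr (Equiv.subtypeEquivRight fun P => ?_)
      rw [WeierstrassCurve.Affine.equation_iff]
      simp only [WeierstrassCurve.map, map_zero, eq_intCast, zero_mul, add_zero]
    rw [e]
    exact hl3.add_one

end Pool.Agent.T9h30.BF
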