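import Mathlib
import Pool.Agent.R430.T1
import Pool.Agent.T9h37.BK.Main

/-!
# The conjecture of Bloch and Kato for the motives `h¹(E)(1) ⊗ M`, `E : y² + y = x³`, all Artin motives
# `M` over nonabelian extensions of `ℚ(√-3)`, `p = 2`

Call a prime of a number field good when `2` is not a cube modulo it.  Let `F = ℚ(√-3)`, let `N/F` be
a quadratic extension in which only good primes ramify (any class number), and let `K/N` be a Galois
extension of exponent two in which only good primes ramify (or an abelian extension of degree `2 ^ n`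
with an Artin map whose modulus has only good prime divisors), such that `K` is Galois over `ℚ`.  In
general `K` is not abelian over `ℚ` and not abelian over `F`.  No condition is imposed on the primes
above `2` and `3`.

Let `M = ℤ ^ g` be any lattice of any rank `g` with an action `R` of the Galois group of `K / ℚ`, and
let `A = E ⊗ M`, an abelian variety over `ℚ` of dimension `g`.  All the Artin motives over `ℚ` (with
rational coefficients) that are trivial over `K` are of the form `M ⊗ ℚ`, and `h¹(A^∨)(1)` is the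
motive `h¹(E)(1) ⊗ M`.  We prove: `A(ℚ)` is finite, so `A(ℚ) ⊗ ℚ_2 = 0`, and `H¹_f(ℚ, V_2 A) = 0`.  So
the Abel–Jacobi map of this motive is an isomorphism onto `H¹_f`, for `p = 2`.  The same is proved for
`E` over `K`.

`H1fA 2 W R` is the group of the classes of the continuous cocycles of the absolute Galois group of `ℚ`
with values in `V_2 A` whose restriction to the completion of `ℚ` at every place is in the image of the
local Kummer map; this is the condition of Bloch and Kato.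

The 2-descent over `K` is from the starting library (`Pool.Agent.R430`, `Pool.Agent.Y696`); for `E`
over the fields `k` with `k(√-3) = K` see also `MP_6e2fc3_nt/NonabelianTotallyReal`.
-/

set_option autoImplicit false

namespace Pool.Agent.Results.MP_009fd8_ag.EisensteinLatticesTwo

open NumberField IsDedekindDomain WeierstrassCurve
open Pool.Agent.TH841.SH.D (Gal)
open Pool.Agent.Y702.A (ptsA)
open Pool.Agent.Y667.BKP (H1f)
open Pool.Agent.T9h37.BK (H1fA)
open scoped Classical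

/-- The curve `y² + y = x³`. -/
def curve : WeierstrassCurve ℤ := ⟨0, 0, 1, 0, 0⟩

/-- only primes modulo which `2` is not a cube ramify in `K/F`: if `σ ≠ 1` lies in the inertia group of
the prime `w` of `K`, then `2` is not a cube modulo the prime of `F` below `w` -/
def GoodRam (F K : Type) [Field F] [NumberField F] [Field K] [NumberField K] [Algebra F K] : Prop :=
  ∀ (w : HeightOneSpectrum (𝓞 K)) (σ : Gal(K/F)), (∀ x : 𝓞 K, σ • x - x ∈ w.asIdeal) → σ ≠ 1 →
    ∀ α : 𝓞 F, α ^ 3 - 2 ∉ w.asIdeal.under (𝓞 F)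

/-- `Φ` is an Artin map modulo the ideal `𝔪` of the Galois extension `K/F` (`F` has no real place): on
the non-zero ideals prime to `𝔪` it is multiplicative, it is trivial on the ideals `(α)` with
`α - 1 ∈ 𝔪`, `α ≠ 0`, the inertia groups of the primes of `K` not above a prime divisor of `𝔪` are
trivial, and `Φ(𝔭)` acts as a Frobenius automorphism at the primes of `K` above `𝔭`, `𝔭 ∤ 𝔪` -/
structure ArtinMap {F K : Type} [Field F] [NumberField F] [Field K] [NumberField K] [Algebra F K]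
    (𝔪 : Ideal (𝓞 F)) (Φ : Ideal (𝓞 F) → Gal(K/F)) : Prop where
  mul : ∀ I J : Ideal (𝓞 F), I ≠ ⊥ → J ≠ ⊥ → IsCoprime I 𝔪 → IsCoprime J 𝔪 → Φ (I * J) = Φ I * Φ J
  ray : ∀ α : 𝓞 F, α ≠ 0 → α - 1 ∈ 𝔪 → Φ (Ideal.span {α}) = 1
  unram : ∀ w : HeightOneSpectrum (𝓞 K), ¬ 𝔪 ≤ w.asIdeal.under (𝓞 F) →
    ∀ σ : Gal(K/F), (∀ x : 𝓞 K, σ • x - x ∈ w.asIdeal) → σ = 1
  frob : ∀ w : HeightOneSpectrum (𝓞 K), ¬ 𝔪 ≤ w.asIdeal.under (𝓞 F) → ∀ x : 𝓞 K,
    Φ (w.asIdeal.under (𝓞 F)) • x - x ^ Nat.card (𝓞 F ⧸ w.asIdeal.under (𝓞 F)) ∈ w.asIdeal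

/-- the hypothesis on `K/N`: its Galois group has exponent `2` and only good primes ramify, or it is
abelian of degree `2 ^ n` and has an Artin map modulo an ideal `𝔪 ≠ 0` with only good prime divisors -/
def Admissible (N K : Type) [Field N] [NumberField N] [Field K] [NumberField K] [Algebra N K] : Prop :=
  (GoodRam N K ∧ ∀ σ : Gal(K/N), σ * σ = 1) ∨
    ((∃ n : ℕ, Module.finrank N K = 2 ^ n) ∧ (∀ σ τ : Gal(K/N), σ * τ = τ * σ) ∧
      ∃ 𝔪 : Ideal (𝓞 N), 𝔪 ≠ ⊥ ∧
        (∀ v : HeightOneSpectrum (𝓞 N), 𝔪 ≤ v.asIdeal → ∀ α : 𝓞 N, α ^ 3 - 2 ∉ v.asIdeal) ∧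
        ∃ Φ : Ideal (𝓞 N) → Gal(K/N), ArtinMap 𝔪 Φ)

/-- `R` is an action of the Galois group of `K / ℚ` on the lattice `ℤ ^ g`: it is trivial on the
automorphisms that fix the image of `K` in the algebraic closure of `ℚ`. -/
def SplitBy (K : Type) [Field K] {g : ℕ} (R : Gal ℚ →* GL (Fin g) ℤ) : Prop :=
  ∃ e : K →+* AlgebraicClosure ℚ, ∀ σ : Gal ℚ, (∀ x : K, σ (e x) = e x) → R σ = 1

/-- `W(K) ⊗ ℚ_2` and `H¹_f(K, V_2 W)` are zero. -/
def BothZero {K : Type} [Field K] [NumberField K] (W : WeierstrassCurve K) : Prop :=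
  (∀ x : TensorProduct ℤ W.toAffine.Point ℚ_[2], x = 0) ∧ ∀ x : H1f 2 W, x = 0

/-- `A(ℚ) ⊗ ℚ_2` and `H¹_f(ℚ, V_2 A)` are zero, `A = W ⊗ ℤ ^ g`. -/
def BothZeroTensor {g : ℕ} (W : WeierstrassCurve ℤ) (R : Gal ℚ →* GL (Fin g) ℤ) : Prop :=
  (∀ x : TensorProduct ℤ (ptsA W R) ℚ_[2], x = 0) ∧ ∀ x : H1fA 2 W R, x = 0

/-- **Main theorem.**  Let `F = ℚ(√-3)`, let `N/F` be a quadratic extension in which only good primes
ramify, `K/N` an admissible Galois extension such that `K/ℚ` is a Galois extension, and `E` the curve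
`y² + y = x³`.  Then `E(K) ⊗ ℚ_2` and `H¹_f(K, V_2 E)` are zero, and for all the lattices of any rank
`g` with an action of the Galois group of `K / ℚ`, `A = E ⊗ ℤ ^ g`, `A(ℚ) ⊗ ℚ_2` and
`H¹_f(ℚ, V_2 A)` are zero. -/
theorem result :
    ∀ (F N K : Type) [Field F] [NumberField F] [IsCyclotomicExtension {3} ℚ F]
      [Field N] [NumberField N] [Algebra F N] [Field K] [NumberField K] [Algebra N K] [IsGalois N K],
      Module.finrank F N = 2 → GoodRam F N → Admissible N K → IsGalois ℚ K →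
        BothZero (curve.map (Int.castRingHom K)) ∧
        ∀ (g : ℕ) (R : Gal ℚ →* GL (Fin g) ℤ), SplitBy K R → BothZeroTensor curve R := by
  intro F N K _ _ _ _ _ _ _ _ _ _ h2 hg hcase hG
  have hyp : Pool.Agent.R430.Hyp N K := by
    rcases hcase with ⟨h3, h4⟩ | ⟨hn, hcomm, 𝔪, h𝔪, hgood, Φ, hΦ⟩
    · exact Or.inl ⟨h3, h4⟩
    · exact Or.inr ⟨hn, hcomm, 𝔪, h𝔪, hgood, Φ, hΦ.mul, hΦ.ray, hΦ.unram, hΦ.frob⟩
  have h := Pool.Agent.R430.all_K h2 hg hyp
  have hE : curve.map (Int.castRingHom K) = Pool.Agent.Y696.E27 K := by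
    unfold curve Pool.Agent.Y696.E27
    ext <;> simp
  have b2 : Finite (curve.map (Int.castRingHom K)).toAffine.Point := by
    rw [hE]
    exact h.finite
  have key : ∀ (n : ℕ) (x : Pool.Agent.TH841.NF.D.Sha (curve.map (Int.castRingHom K))),
      (2 ^ n : ℕ) • x = 0 → (2 ^ 0 : ℕ) • x = 0 := by
    rw [hE]
    intro n x hx
    rw [Pool.Agent.Y65.Sham.no_two (fun s hs => h.sha s (by rw [← two_nsmul]; exact hs)) n x hx,
      smul_zero]
  refine ⟨⟨Pool.Agent.Y667.BKP.tensor_zero 2, Pool.Agent.Y667.BKP.h1f_zero Nat.prime_two b2 0 key⟩,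
    fun g R hR => ?_⟩
  obtain ⟨e, he⟩ := hR
  obtain ⟨h5, h6⟩ := Pool.Agent.T9h37.BK.zeroA Nat.prime_two curve K hG 0 key b2 g R e he
  exact ⟨Pool.Agent.Y667.BKP.tensor_zero 2, h6⟩

end Pool.Agent.Results.MP_009fd8_ag.EisensteinLatticesTwo
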