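import Mathlib

/-!
# Subfields of cyclotomic fields in which a prime splits completely
-/

set_option autoImplicit false

open NumberField IsDedekindDomain

namespace Pool.Agent.T9h30.BF

/-- Piece (SPL).  Let `C = ℚ(ζ_m)`, `F → C` a homomorphism, `F / ℚ` Galois, all elements of
`Gal (F / ℚ)` killed by `n`, and `v` a prime of `ℚ` not dividing `m` whose norm (the prime number `q`) is an
`n`-th power modulo `m`.  Then `v` splits completely in `F`: `F` embeds into the completion at `v`.

Proof as in `Pool.Agent.T9h30.TP.split_pow2` (file `Pool/Agent/T9h30/TP/Dpw2.lean`, there for `K`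
imaginary quadratic): a Frobenius element `s` of `C` at a prime above `v` acts on `ζ` as `ζ ↦ ζ ^ q`
(`kc_frb`), `x` is a unit modulo `m`, `s = t ^ n` with `t : ζ ↦ ζ ^ x` (exists over `ℚ` because the cyclotomic
polynomial is irreducible), so `s` is trivial on `F`; then `res_frb`, `in_cyc`, `emb_frb`. -/
def StSpl : Prop := ∀ (n m : ℕ) (_ : NeZero m) (F C : Type) [Field F] [NumberField F] [Field C]
  [NumberField C] [Algebra F C] [IsCyclotomicExtension {m} ℚ C] [IsGalois ℚ F],
  (∀ t : F ≃ₐ[ℚ] F, t ^ n = 1) → ∀ v : HeightOneSpectrum (𝓞 ℚ), (m : 𝓞 ℚ) ∉ v.asIdeal →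
    (∃ x : ZMod m, x ^ n = (Ideal.absNorm v.asIdeal : ℕ)) →
    Nonempty (F →ₐ[ℚ] v.adicCompletion ℚ)

/-- Piece (GRP).  A Galois number field `F` all whose automorphisms are killed by `p ^ N` has degree a
power of the prime `p`. -/
def StGrp : Prop := ∀ (p N : ℕ), p.Prime → ∀ (F : Type) [Field F] [NumberField F] [IsGalois ℚ F],
  (∀ t : F ≃ₐ[ℚ] F, t ^ p ^ N = 1) → ∃ k, Module.finrank ℚ F = p ^ k

/-- Piece (CRT).  `m` squarefree and `q` an `n`-th power modulo all the prime divisors of `m`; then `q` is an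
`n`-th power modulo `m`. -/
def StCrt : Prop := ∀ (m n q : ℕ), Squarefree m →
  (∀ l : ℕ, l.Prime → l ∣ m → ∃ x : ZMod l, x ^ n = (q : ZMod l)) → ∃ x : ZMod m, x ^ n = (q : ZMod m)

end Pool.Agent.T9h30.BF
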