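import Pool.Agent.T9h30.BF.Many
import Pool.Agent.T9h30.BF.Spec2
import Pool.Agent.T9h30.TP.Sha
import Pool.Agent.T9h30.TP.Fin

/-!
# Abelian extensions of `ℚ` of `p`-power degree in which the bad primes split
-/

set_option autoImplicit false
set_option linter.all false

open NumberField IsDedekindDomain Filter WeierstrassCurve

namespace Pool.Agent.T9h30.BF

open Pool.Agent.T9h30.BT Pool.Agent.T9h30.PG Pool.Agent.T9h30.TP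

/-- the set of the primes -/
def PP (a b : ℤ) (p N : ℕ) : Set ℕ :=
  {l : ℕ | l.Prime ∧ ((l : ℕ) : ZMod (p ^ N)) = 1 ∧
    (∀ v : HeightOneSpectrum (𝓞 ℚ), (l : 𝓞 ℚ) ∈ v.asIdeal → Adp (a : 𝓞 ℚ) (b : 𝓞 ℚ) p v) ∧
    ∀ q ∈ (2 * (p : ℤ) * (4 * a ^ 3 + 27 * b ^ 2)).natAbs.primeFactors,
      ∃ x : ZMod l, x ^ p ^ N = ((q : ℕ) : ZMod l)}

lemma norm_of_mem {v : HeightOneSpectrum (𝓞 ℚ)} {l : ℕ} (hl : l.Prime) (h : (l : 𝓞 ℚ) ∈ v.asIdeal) :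
    Ideal.absNorm v.asIdeal = l := by
  have hd : Ideal.absNorm v.asIdeal ∣ l := by
    have h1 := Ideal.absNorm_dvd_absNorm_of_le ((Ideal.span_singleton_le_iff_mem _).2 h)
    rw [Ideal.absNorm_span_natCast, NumberField.RingOfIntegers.rank, Module.finrank_self,
      pow_one] at h1
    exact h1
  have hn1 : Ideal.absNorm v.asIdeal ≠ 1 := fun h => v.isPrime.ne_top (Ideal.absNorm_eq_one_iff.1 h)
  exact (hl.eq_one_or_self_of_dvd _ hd).resolve_left hn1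

theorem dens_PP {a b : ℤ} {p : ℕ} (hΔ : 4 * a ^ 3 + 27 * b ^ 2 ≠ 0) (hp : p.Prime)
    {v₀ : HeightOneSpectrum (𝓞 ℚ)} (h₀ : Ideal.absNorm v₀.asIdeal % p = 1)
    (hA : Adp (a : 𝓞 ℚ) (b : 𝓞 ℚ) p v₀) (N : ℕ) :
    ∃ d : ℝ, 0 < d ∧ ∀ᶠ X : ℕ in atTop,
      d * Nat.primeCounting X ≤ {l : ℕ | l ≤ X ∧ l ∈ PP a b p N}.ncard := by
  have hD : ∀ i : Unit, 4 * ((fun _ : Unit => (a : 𝓞 ℚ)) i) ^ 3 +
      27 * ((fun _ : Unit => (b : 𝓞 ℚ)) i) ^ 2 ≠ 0 := by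
    intro i
    have : ((4 * a ^ 3 + 27 * b ^ 2 : ℤ) : 𝓞 ℚ) ≠ 0 := Int.cast_ne_zero.2 hΔ
    push_cast at this
    exact this
  have hpv : (p : 𝓞 ℚ) ∉ v₀.asIdeal := by
    intro h
    apply hA.1
    have e : 2 * (p : 𝓞 ℚ) * (4 * (a : 𝓞 ℚ) ^ 3 + 27 * (b : 𝓞 ℚ) ^ 2) =
      (p : 𝓞 ℚ) * (2 * (4 * (a : 𝓞 ℚ) ^ 3 + 27 * (b : 𝓞 ℚ) ^ 2)) := by ring
    rw [e]
    exact v₀.asIdeal.mul_mem_right _ h
  obtain ⟨d, hd, h⟩ := dens_pow1 (K := ℚ) (J := Unit) (p := p) hD hp h₀ (fun _ => hA) hpv N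
    (2 * (p : ℤ) * (4 * a ^ 3 + 27 * b ^ 2)).natAbs.primeFactors
  refine ⟨d, hd, h.mono fun X hX => hX.trans ?_⟩
  have hfin : {l : ℕ | l ≤ X ∧ l ∈ PP a b p N}.Finite := (Set.finite_Iic X).subset fun l hl => hl.1
  refine Nat.cast_le.2 (Set.ncard_le_ncard_of_injOn (fun v => Ideal.absNorm v.asIdeal) ?_
    (fun v _ w _ hvw => place_inj hvw) hfin)
  rintro v ⟨hvX, hvS⟩
  obtain ⟨l, hl, hn, hlv, -⟩ := place_q v
  obtain ⟨h4, h5⟩ := hvS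
  obtain ⟨h6, h7⟩ := h5 l hl hn
  show Ideal.absNorm v.asIdeal ≤ X ∧ Ideal.absNorm v.asIdeal ∈ PP a b p N
  rw [hn] at hvX ⊢
  refine ⟨hvX, hl, h6, fun w hw => ?_, h7⟩
  have e : w = v := place_inj (by rw [hn, norm_of_mem hl hw])
  rw [e]
  exact h4 ()

section main

variable {F : Type} [Field F] [DecidableEq F] [NumberField F]

/-- **The points and the Tate-Shafarevich group over abelian fields.** -/
theorem ab_ext (hSpl : StSpl) (hGrp : StGrp) (hCrt : StCrt) {a b : ℤ} {p : ℕ} (hp : p.Prime)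
    (hΔ : 4 * a ^ 3 + 27 * b ^ 2 ≠ 0) {N : ℕ} (S : Finset ℕ) (hS : ∀ l ∈ S, l ∈ PP a b p N)
    (hF : Nonempty (F →ₐ[ℚ] CyclotomicField (∏ l ∈ S, l) ℚ)) (hexp : ∀ t : F ≃ₐ[ℚ] F, t ^ p ^ N = 1) :
    IsGalois ℚ F ∧ (∃ k, Module.finrank ℚ F = p ^ k) ∧
    (∀ v : HeightOneSpectrum (𝓞 ℚ),
      2 * (p : 𝓞 ℚ) * (4 * (a : 𝓞 ℚ) ^ 3 + 27 * (b : 𝓞 ℚ) ^ 2) ∈ v.asIdeal →
      Nonempty (F →ₐ[ℚ] v.adicCompletion ℚ)) ∧
    ∀ u : HeightOneSpectrum (𝓞 F), ¬ Adp (a : 𝓞 ℚ) (b : 𝓞 ℚ) p (lo (K := ℚ) u) →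
      ∀ t : F ≃ₐ[ℚ] F, t ∈ In u → t = 1 := by
  set m := ∏ l ∈ S, l with hm
  have hm0 : m ≠ 0 := Finset.prod_ne_zero_iff.2 fun l hl => (hS l hl).1.ne_zero
  have hNZ : NeZero m := ⟨hm0⟩
  have hcyc : IsCyclotomicExtension {m} ℚ (CyclotomicField m ℚ) := by
    haveI : NeZero ((m : ℕ) : ℚ) := ⟨by exact_mod_cast hm0⟩
    exact CyclotomicField.isCyclotomicExtension m ℚ
  obtain ⟨e⟩ := hF
  letI : Algebra F (CyclotomicField m ℚ) := e.toRingHom.toAlgebra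
  have ht : IsScalarTower ℚ F (CyclotomicField m ℚ) :=
    IsScalarTower.of_algebraMap_eq fun x => (e.commutes x).symm
  have hab : IsAbelianGalois ℚ (CyclotomicField m ℚ) :=
    IsCyclotomicExtension.isAbelianGalois {m} ℚ (CyclotomicField m ℚ)
  have hab2 : IsAbelianGalois ℚ F := IsAbelianGalois.tower_bot ℚ F (CyclotomicField m ℚ)
  have hG : IsGalois ℚ F := inferInstance
  have hgood : ∀ v : HeightOneSpectrum (𝓞 ℚ), (m : 𝓞 ℚ) ∈ v.asIdeal →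
      Adp (a : 𝓞 ℚ) (b : 𝓞 ℚ) p v := by
    intro v hv
    rw [hm, Nat.cast_prod] at hv
    obtain ⟨l, hl, hlv⟩ := (v.isPrime.prod_mem_iff).1 hv
    exact (hS l hl).2.2.1 v hlv
  have hsq : Squarefree m := by
    rw [hm]
    exact Finset.squarefree_prod_of_pairwise_isCoprime (fun l hl l' hl' hne =>
      Nat.isCoprime_iff_coprime.2 ((Nat.coprime_primes (hS l hl).1 (hS l' hl').1).2 hne) |>.elim
        fun x hx => (Nat.coprime_iff_isRelPrime.1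
          ((Nat.coprime_primes (hS l hl).1 (hS l' hl').1).2 hne)))
      fun l hl => (hS l hl).1.prime.squarefree
  refine ⟨hG, hGrp p N hp F hexp, fun v hv => ?_, fun u hu t ht => ?_⟩
  · have hvm : (m : 𝓞 ℚ) ∉ v.asIdeal := fun h => (hgood v h).1 hv
    refine hSpl (p ^ N) m hNZ F (CyclotomicField m ℚ) hexp v hvm ?_
    refine hCrt m (p ^ N) _ hsq fun l hl hlm => ?_
    obtain ⟨l', hl', hll⟩ := (Prime.dvd_finset_prod_iff hl.prime _).1 (by rw [← hm]; exact hlm)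
    have e1 : l = l' := (Nat.prime_dvd_prime_iff_eq hl (hS l' hl').1).1 hll
    rw [e1]
    refine (hS l' hl').2.2.2 _ ?_
    obtain ⟨q, hq, hn, hqv, -⟩ := place_q v
    have h0 : (2 * (p : ℤ) * (4 * a ^ 3 + 27 * b ^ 2) : ℤ) ≠ 0 :=
      mul_ne_zero (mul_ne_zero two_ne_zero (by exact_mod_cast hp.ne_zero)) hΔ
    obtain ⟨q', hq', hqd, hqv'⟩ := exists_char v (n := 2 * (p : ℤ) * (4 * a ^ 3 + 27 * b ^ 2)) (by
      push_cast
      exact hv) h0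
    rw [norm_of_mem hq' hqv', Nat.mem_primeFactors]
    exact ⟨hq', Int.natCast_dvd.1 hqd, Int.natAbs_ne_zero.2 h0⟩
  · refine in_cyc (m := m) (CyclotomicField m ℚ) (fun h => hu (hgood _ h)) t ht

end main

end Pool.Agent.T9h30.BF
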