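import Mathlib
import Pool.Agent.T9h37.BK.Main
import Pool.Agent.T9h30.BF.Prm2
import Pool.Agent.T9h70.BF.Grp
import Pool.Agent.T9h70.BF.Spl

/-!
# The conjecture of Bloch and Kato for `h¹(E)(1) ⊗ M` over extensions of `p`-power degree, every prime `p`

Let `p` be ANY prime, `K` ANY number field, and `E : y² = x³ + a x + b` an elliptic curve over `K` with integral `a`,
`b`, without points of order `p` over `K` and with trivial `p`-Selmer group over `K` (in the case `p = 2` no condition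
at the real places is imposed on the classes).  We say that a Galois extension `F` of `K` belongs to the class of `E` if its
degree is a power of `p` (the Galois group is arbitrary), if it is ramified only at places `v ∤ 2 p Δ` for which the
number of the points of `E` over the residue field is not divisible by `p`, and if the places `v ∣ 2 p Δ` split completely.

Theorem.
(1) For all `F` in the class of `E`: `E(F) ⊗ ℚ_p = 0 = H¹_f(F, V_p E)`.
(2) If moreover `a`, `b` are rational integers and `F / ℚ` is Galois, then for all lattices `ℤ ^ g` of any rank with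
an action of the Galois group of `F / ℚ`, `A = E ⊗ ℤ ^ g`: `A(ℚ) ⊗ ℚ_p = 0 = H¹_f(ℚ, V_p A)`.
(3) Let `K = ℚ` and let `v₀` be a place of norm `1` modulo `p`, `v₀ ∤ 2 p Δ`, for which the number of points of `E` is not
divisible by `p`.  For every `N` there is a set `P` of prime numbers of positive lower density such that (1) and (2) apply
to all the fields `F` contained in the field of `m`-th roots of unity, `m` a product of different elements of
`P`, whose Galois group is killed by `p ^ N`.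

Every Artin motive over `ℚ` with rational coefficients that is trivial over `F` is of the form
`ℚ ⊗ ℤ ^ g`, and `h¹(A^∨)(1)` is the motive `h¹(E)(1) ⊗ M`.  So the Abel–Jacobi map of this motive is an
isomorphism onto `H¹_f`, at the prime `p`.

The proof.  By a filtration argument for the action of the `p`-group `Gal(F/K)` on the cocycles with the Selmer conditions
(`Pool/Agent/T9h30/TP`, `PG`) `E(F)` is finite and `Ш(E/F)[p^∞] = 0`.  The descent of the cocycles with values in `V_p A`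
from `F` to `ℚ` is due to helper37 (`Pool/Agent/T9h37/BK/Main.lean`).  Part (3) uses a theorem of Chebotarev type and
pieces by helper70 (`Pool/Agent/T9h70/BF`).
-/

set_option autoImplicit false
set_option linter.all false

open NumberField IsDedekindDomain WeierstrassCurve Filter

namespace Pool.Agent.Results.MP_009fd8_ag.EveryPrimeLattices

open Pool.Agent.TH841.SH.D (Gal)
open Pool.Agent.Y702.A (ptsA)
open Pool.Agent.Y667.BKP (H1f)
open Pool.Agent.T9h37.BK (H1fA)

/-- The curve `E : y² = x³ + a x + b`. -/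
def curve {R : Type} [CommRing R] (a b : R) : WeierstrassCurve R := ⟨0, 0, 0, a, b⟩

/-! ### The `p`-Selmer group over `K` -/

section selmer

variable {K : Type} [Field K] [NumberField K]

/-- The group `E(M)`, for an extension `M` of `K` and the curve `E : y² = x³ + a x + b` over `K`. -/
abbrev Pts (a b : K) (M : Type) [Field M] [Algebra K M] : Type :=
  ((curve a b).baseChange M).toAffine.Point

/-- The homomorphism `E(M) → E(M')` given by a homomorphism `M → M'` over `K`. -/
noncomputable def push {a b : K} {M M' : Type} [Field M] [Field M'] [Algebra K M] [Algebra K M']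
    [DecidableEq M] [DecidableEq M'] (f : M →ₐ[K] M') : Pts a b M →+ Pts a b M' :=
  WeierstrassCurve.Affine.Point.map (W' := (curve a b).toAffine) (S := K) f

/-- An algebraic closure of the completion `K_v`. -/
abbrev Clo (v : HeightOneSpectrum (𝓞 K)) : Type := AlgebraicClosure (v.adicCompletion K)

open Classical in
/-- `f : Gal(M/K) → E(M)` is a cocycle with values of order `p` whose class in `H¹(K, E[p])` satisfies the Selmer
conditions at the finite places of `K`, `M/K` being a finite Galois extension: it is zero on the inertia groups of the places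
`w ∤ 2p(4a³ + 27b²)` of `M`, and at the places `v ∣ 2p(4a³ + 27b²)` of `K` its class becomes trivial in
`H¹(K_v, E)`: for every embedding `ι` of `M` in the algebraic closure of `K_v` there is a point `P` over this closure with
`ι(f(s)) = τ(P) - P` for all `τ` in the Galois group of `K_v`, where `s` is the restriction of `τ` to `M`. -/
structure IsSelmerCocycle (a b : 𝓞 K) (p : ℕ) {M : Type} [Field M] [NumberField M] [Algebra K M]
    [DecidableEq M] (f : (M ≃ₐ[K] M) → Pts (a : K) (b : K) M) : Prop where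
  cocycle : ∀ g h : M ≃ₐ[K] M, f (g * h) = f g + push (g : M →ₐ[K] M) (f h)
  torsion : ∀ g : M ≃ₐ[K] M, p • f g = 0
  unramified : ∀ w : HeightOneSpectrum (𝓞 M),
    algebraMap (𝓞 K) (𝓞 M) (2 * p * (4 * a ^ 3 + 27 * b ^ 2)) ∉ w.asIdeal →
      ∀ g : M ≃ₐ[K] M, (∀ x : 𝓞 M, g • x - x ∈ w.asIdeal) → f g = 0
  localCondition : ∀ v : HeightOneSpectrum (𝓞 K), 2 * p * (4 * a ^ 3 + 27 * b ^ 2) ∈ v.asIdeal →
    ∀ ι : M →ₐ[K] Clo v, ∃ P : Pts (a : K) (b : K) (Clo v),
      ∀ (τ : Clo v ≃ₐ[v.adicCompletion K] Clo v) (s : M ≃ₐ[K] M), (∀ x, τ (ι x) = ι (s x)) →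
        push ι (f s) = push (τ.restrictScalars K : Clo v →ₐ[K] Clo v) P - P

/-- The `p`-Selmer group of `E/K` is trivial: all the cocycles in it, for all finite Galois extensions `M/K`, are the
coboundaries `g ↦ g(T) - T` of points `T` of `E(M)` of order `p`.  (For `p` odd, or if `K` is totally complex, or if `E[2]`
has no cohomology at the real places, this is the usual `p`-Selmer group; in general there is no condition at the
real places.) -/
def TrivialSelmer (a b : 𝓞 K) (p : ℕ) : Prop :=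
  ∀ (M : Type) [Field M] [DecidableEq M] [NumberField M] [Algebra K M] [IsGalois K M]
    (f : (M ≃ₐ[K] M) → Pts (a : K) (b : K) M), IsSelmerCocycle a b p f →
      ∃ T : Pts (a : K) (b : K) M, p • T = 0 ∧ ∀ g : M ≃ₐ[K] M, f g = push (g : M →ₐ[K] M) T - T

open Classical in
/-- `E(K)` has no element of order `p`. -/
def NoTorsion (a b : 𝓞 K) (p : ℕ) : Prop := ∀ T : Pts (a : K) (b : K) K, p • T = 0 → T = 0

/-! ### The class of the fields -/

/-- The number of the points of `y² = x³ + a x + b`, with the point at infinity, over the residue field of `v`. -/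
noncomputable def points (a b : 𝓞 K) (v : HeightOneSpectrum (𝓞 K)) : ℕ :=
  Nat.card {P : (𝓞 K ⧸ v.asIdeal) × (𝓞 K ⧸ v.asIdeal) //
    P.2 ^ 2 = P.1 ^ 3 + Ideal.Quotient.mk v.asIdeal a * P.1 + Ideal.Quotient.mk v.asIdeal b} + 1

/-- The admissible places: `v ∤ 2p(4a³ + 27b²)`, and the number of the points of `E` over the residue field of `v` is not
divisible by `p`. -/
def Admissible (a b : 𝓞 K) (p : ℕ) (v : HeightOneSpectrum (𝓞 K)) : Prop :=
  2 * (p : 𝓞 K) * (4 * a ^ 3 + 27 * b ^ 2) ∉ v.asIdeal ∧ ¬ p ∣ points a b v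

/-- The class of `E`: `F` is a Galois extension of `K` of degree a power of `p`; the places `v ∣ 2p(4a³ + 27b²)` split
completely in `F` (`F` embeds in `K_v`); and `F / K` is unramified at the places which are not admissible (an
automorphism in the inertia group of a place `u` above such a place `v` is trivial). -/
structure IsExtension (F : Type) [Field F] [NumberField F] [Algebra K F] (a b : 𝓞 K) (p : ℕ) :
    Prop where
  galois : IsGalois K F
  degree : ∃ k, Module.finrank K F = p ^ k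
  split : ∀ v : HeightOneSpectrum (𝓞 K), 2 * (p : 𝓞 K) * (4 * a ^ 3 + 27 * b ^ 2) ∈ v.asIdeal →
    Nonempty (F →ₐ[K] v.adicCompletion K)
  ramified : ∀ (v : HeightOneSpectrum (𝓞 K)) (u : HeightOneSpectrum (𝓞 F)),
    v.asIdeal = u.asIdeal.comap (algebraMap (𝓞 K) (𝓞 F)) → ¬ Admissible a b p v →
      ∀ t : F ≃ₐ[K] F, (∀ x : 𝓞 F, t • x - x ∈ u.asIdeal) → t = 1

end selmer

/-! ### The two sides of the conjecture -/

/-- `R` is an action of the Galois group of `F / ℚ` on the lattice `ℤ ^ g`: it is trivial on the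
automorphisms that fix the image of `F` in the algebraic closure of `ℚ`. -/
def SplitBy (F : Type) [Field F] {g : ℕ} (R : Gal ℚ →* GL (Fin g) ℤ) : Prop :=
  ∃ e : F →+* AlgebraicClosure ℚ, ∀ σ : Gal ℚ, (∀ x : F, σ (e x) = e x) → R σ = 1

open Classical in
/-- `W(F) ⊗ ℚ_p` and `H¹_f(F, V_p W)` are zero. -/
def BothZero (p : ℕ) [Fact p.Prime] {F : Type} [Field F] [NumberField F] (W : WeierstrassCurve F) :
    Prop :=
  (∀ x : TensorProduct ℤ W.toAffine.Point ℚ_[p], x = 0) ∧ ∀ x : H1f p W, x = 0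

/-- `A(ℚ) ⊗ ℚ_p` and `H¹_f(ℚ, V_p A)` are zero, `A = W ⊗ ℤ ^ g`. -/
def BothZeroTensor (p : ℕ) [Fact p.Prime] {g : ℕ} (W : WeierstrassCurve ℤ)
    (R : Gal ℚ →* GL (Fin g) ℤ) : Prop :=
  (∀ x : TensorProduct ℤ (ptsA W R) ℚ_[p], x = 0) ∧ ∀ x : H1fA p W R, x = 0

/-- The lower density of the set `P` in the set of the primes is positive. -/
def PositiveDensity (P : Set ℕ) : Prop :=
  ∃ d : ℝ, 0 < d ∧ ∀ᶠ X : ℕ in atTop, d * Nat.primeCounting X ≤ {l : ℕ | l ≤ X ∧ l ∈ P}.ncard

/-! ### Proofs -/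

section proof

variable {K : Type} [Field K] [NumberField K]

lemma selT {a b : 𝓞 K} {p : ℕ} (h : TrivialSelmer a b p) : Pool.Agent.T9h30.PG.SelT a b p := by
  intro M _ _ _ _ _ f hf
  exact h M f ⟨hf.coc, hf.tor, hf.unr, hf.loc⟩

omit [NumberField K] in
lemma bc_eq {F : Type} [Field F] [NumberField F] [Algebra K F] {a b : 𝓞 K} :
    (curve (a : K) (b : K)).baseChange F = Pool.Agent.T9h30.BT.cF F a b := by
  show (Pool.Agent.T9h30.BT.cv (a : K) (b : K)).baseChange F = _
  unfold Pool.Agent.T9h30.BT.cF WeierstrassCurve.baseChange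
  rw [Pool.Agent.T9h30.BT.cv_map]

open scoped Classical in
/-- the two inputs over `F` -/
theorem input {F : Type} [Field F] [NumberField F] [Algebra K F] {a b : 𝓞 K} {p : ℕ} (hp : p.Prime)
    (hΔ : 4 * a ^ 3 + 27 * b ^ 2 ≠ 0) (hT : NoTorsion a b p) (hS : TrivialSelmer a b p)
    (hF : IsExtension F a b p) :
    Finite ((curve (a : K) (b : K)).baseChange F).toAffine.Point ∧
      ∀ (k : ℕ) (s : Pool.Agent.TH841.NF.D.Sha ((curve (a : K) (b : K)).baseChange F)),
        (p ^ k : ℕ) • s = 0 → (p ^ 0 : ℕ) • s = 0 := by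
  classical
  have hG := hF.galois
  obtain ⟨k, hk⟩ := hF.degree
  have hT' : ∀ T : Pool.Agent.T9h30.PG.EP (a : K) (b : K) K, p • T = 0 → T = 0 := by
    intro T hT0
    exact hT T hT0
  have hun : ∀ u : HeightOneSpectrum (𝓞 F),
      2 * (p : 𝓞 K) * (4 * a ^ 3 + 27 * b ^ 2) ∉ (Pool.Agent.T9h30.BT.lo (K := K) u).asIdeal →
      p ∣ Pool.Agent.T9h30.BT.pp a b (Pool.Agent.T9h30.BT.lo (K := K) u) + 1 →
      ∀ t : F ≃ₐ[K] F, t ∈ Pool.Agent.T9h30.BT.In u → t = 1 := by
    intro u _ hd t ht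
    refine hF.ramified (Pool.Agent.T9h30.BT.lo (K := K) u) u ?_ (fun h => h.2 hd) t
      (Pool.Agent.T9h30.BT.mem_In.1 ht)
    ext x
    rw [Pool.Agent.T9h30.BT.mem_lo]
    rfl
  have h1 := Pool.Agent.T9h30.TP.fin_pts hp hΔ hk hF.split hun hT' (selT hS)
  have hΔ' : (4 : K) * (a : K) ^ 3 + 27 * (b : K) ^ 2 ≠ 0 := by
    have h1 : algebraMap (𝓞 K) K (4 * a ^ 3 + 27 * b ^ 2) ≠ 0 := by
      rwa [Ne, FaithfulSMul.algebraMap_eq_zero_iff]
    intro h2
    apply h1
    rw [map_add, map_mul, map_mul, map_pow, map_pow, map_ofNat, map_ofNat]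
    exact h2
  refine ⟨h1.1, ?_⟩
  rw [bc_eq]
  intro j s hs
  rw [Pool.Agent.T9h30.TP.sha_pow hp hΔ' hk hF.split hun hT' (selT hS) j s hs, smul_zero]

end proof

theorem map_eq {K : Type} [Field K] [NumberField K] (F : Type) [Field F] [NumberField F] [Algebra K F]
    (a b : ℤ) : (curve (((a : 𝓞 K)) : K) (((b : 𝓞 K)) : K)).baseChange F =
      (curve a b).map (Int.castRingHom F) := by
  apply WeierstrassCurve.ext <;> simp [WeierstrassCurve.baseChange, curve]

/-- (1) and (2) together -/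
theorem both {K : Type} [Field K] [NumberField K] (p : ℕ) [hp : Fact p.Prime] :
    (∀ a b : 𝓞 K, 4 * a ^ 3 + 27 * b ^ 2 ≠ 0 → NoTorsion a b p → TrivialSelmer a b p →
      ∀ (F : Type) [Field F] [NumberField F] [Algebra K F], IsExtension F a b p →
        BothZero p ((curve (a : K) (b : K)).baseChange F)) ∧
    ∀ a b : ℤ, 4 * a ^ 3 + 27 * b ^ 2 ≠ 0 → NoTorsion (K := K) a b p →
      TrivialSelmer (K := K) a b p →
      ∀ (F : Type) [Field F] [NumberField F] [Algebra K F], IsExtension F (a : 𝓞 K) (b : 𝓞 K) p →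
        IsGalois ℚ F → ∀ (g : ℕ) (R : Gal ℚ →* GL (Fin g) ℤ), SplitBy F R →
          BothZeroTensor p (curve a b) R := by
  classical
  refine ⟨fun a b hΔ hT hS F _ _ _ hF => ?_, fun a b hΔ hT hS F _ _ _ hF hG g R hR => ?_⟩
  · obtain ⟨h1, h2⟩ := input hp.out hΔ hT hS hF
    exact ⟨Pool.Agent.Y667.BKP.tensor_zero p, Pool.Agent.Y667.BKP.h1f_zero hp.out h1 0 h2⟩
  · have hΔ' : 4 * (a : 𝓞 K) ^ 3 + 27 * (b : 𝓞 K) ^ 2 ≠ 0 := by
      have : ((4 * a ^ 3 + 27 * b ^ 2 : ℤ) : 𝓞 K) ≠ 0 := Int.cast_ne_zero.2 hΔ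
      push_cast at this
      exact this
    obtain ⟨h1, h2⟩ := input hp.out hΔ' hT hS hF
    rw [map_eq F a b] at h1 h2
    obtain ⟨e, he⟩ := hR
    obtain ⟨h5, h6⟩ := Pool.Agent.T9h37.BK.zeroA hp.out (curve a b) F hG 0 h2 h1 g R e he
    exact ⟨Pool.Agent.Y667.BKP.tensor_zero p, h6⟩

/-- **Main theorem.**  (1) and (2) for all number fields `K` and all primes `p`; (3) for `K = ℚ`, if there is an
admissible place `v₀` of norm `1` modulo `p`. -/
theorem result (p : ℕ) [Fact p.Prime] :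
    (∀ (K : Type) [Field K] [NumberField K] (a b : 𝓞 K), 4 * a ^ 3 + 27 * b ^ 2 ≠ 0 →
      NoTorsion a b p → TrivialSelmer a b p →
      ∀ (F : Type) [Field F] [NumberField F] [Algebra K F], IsExtension F a b p →
        BothZero p ((curve (a : K) (b : K)).baseChange F)) ∧
    (∀ (K : Type) [Field K] [NumberField K] (a b : ℤ), 4 * a ^ 3 + 27 * b ^ 2 ≠ 0 →
      NoTorsion (K := K) a b p → TrivialSelmer (K := K) a b p →
      ∀ (F : Type) [Field F] [NumberField F] [Algebra K F], IsExtension F (a : 𝓞 K) (b : 𝓞 K) p →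
        IsGalois ℚ F → ∀ (g : ℕ) (R : Gal ℚ →* GL (Fin g) ℤ), SplitBy F R →
          BothZeroTensor p (curve a b) R) ∧
    ∀ a b : ℤ, 4 * a ^ 3 + 27 * b ^ 2 ≠ 0 →
      (∃ v₀ : HeightOneSpectrum (𝓞 ℚ), Ideal.absNorm v₀.asIdeal % p = 1 ∧
        Admissible (a : 𝓞 ℚ) (b : 𝓞 ℚ) p v₀) →
      ∀ N : ℕ, ∃ P : Set ℕ, PositiveDensity P ∧ (∀ l ∈ P, l.Prime ∧ l ≡ 1 [MOD p ^ N]) ∧
        ∀ S : Finset ℕ, (∀ l ∈ S, l ∈ P) → ∀ (F : Type) [Field F] [NumberField F],
          Nonempty (F →ₐ[ℚ] CyclotomicField (∏ l ∈ S, l) ℚ) → (∀ t : F ≃ₐ[ℚ] F, t ^ p ^ N = 1) →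
            IsGalois ℚ F ∧ IsExtension F (a : 𝓞 ℚ) (b : 𝓞 ℚ) p := by
  have hp : p.Prime := Fact.out
  refine ⟨fun K _ _ => (both p).1, fun K _ _ => (both p).2, fun a b hΔ ⟨v₀, h₀, hA⟩ N => ?_⟩
  refine ⟨Pool.Agent.T9h30.BF.PP a b p N, Pool.Agent.T9h30.BF.dens_PP hΔ hp h₀ hA N,
    fun l hl => ⟨hl.1, ?_⟩, fun S hS F _ _ hF hexp => ?_⟩
  · have h4 := hl.2.1
    rw [← Nat.cast_one, ZMod.natCast_eq_natCast_iff] at h4
    exact h4
  · classical
    obtain ⟨h1, h2, h3, h4⟩ := Pool.Agent.T9h30.BF.ab_ext Pool.Agent.T9h70.BF.spl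
      Pool.Agent.T9h70.BF.grp Pool.Agent.T9h70.BF.crt hp hΔ S hS hF hexp
    refine ⟨h1, h1, h2, h3, fun v u hvu hv t ht => ?_⟩
    have e : v = Pool.Agent.T9h30.BT.lo (K := ℚ) u := by
      apply HeightOneSpectrum.ext
      rw [hvu]
      ext x
      rw [Pool.Agent.T9h30.BT.mem_lo]
      rfl
    rw [e] at hv
    exact h4 u hv t (Pool.Agent.T9h30.BT.mem_In.2 ht)

end Pool.Agent.Results.MP_009fd8_ag.EveryPrimeLattices
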