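import Pool.Agent.T9h30.TP.Dpw2
import Pool.Agent.T9h30.BT.Adm2
import Pool.Agent.K4H55.BM.Main

/-!
# Primes of odd point count modulo which given primes are high powers
-/

set_option autoImplicit false
set_option linter.all false

open NumberField IsDedekindDomain Filter

namespace Pool.Agent.T9h30.BF

open Pool.Agent.T9h30.BT Pool.Agent.T9h30.PG Pool.Agent.T9h30.TP

lemma odd_norm {K : Type} [Field K] [NumberField K] {v : HeightOneSpectrum (𝓞 K)}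
    (h2 : (2 : 𝓞 K) ∉ v.asIdeal) : Ideal.absNorm v.asIdeal % 2 = 1 := by
  have hc : Ideal.absNorm v.asIdeal = Nat.card (𝓞 K ⧸ v.asIdeal) := by
    rw [Ideal.absNorm_apply, Submodule.cardQuot_apply]
  have hne : Ideal.absNorm v.asIdeal ≠ 0 := Ideal.absNorm_ne_zero_iff_mem_nonZeroDivisors.2
    (mem_nonZeroDivisors_of_ne_zero v.ne_bot)
  have hfin : Finite (𝓞 K ⧸ v.asIdeal) := Nat.finite_of_card_ne_zero (by rw [← hc]; exact hne)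
  by_contra h
  have h3 : 2 ∣ Nat.card (𝓞 K ⧸ v.asIdeal) := by omega
  obtain ⟨x, hx⟩ := exists_prime_addOrderOf_dvd_card' (G := 𝓞 K ⧸ v.asIdeal) 2 h3
  have h4 : (2 : ℕ) • x = 0 := by rw [← hx]; exact addOrderOf_nsmul_eq_zero x
  have h5 : x ≠ 0 := by
    rintro rfl
    rw [addOrderOf_zero] at hx
    omega
  have hp := v.isPrime
  have h6 : (2 : 𝓞 K ⧸ v.asIdeal) * x = 0 := by rw [← h4, two_nsmul, two_mul]
  rcases mul_eq_zero.1 h6 with h7 | h7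
  · apply h2
    rw [← Ideal.Quotient.eq_zero_iff_mem, map_ofNat]
    exact h7
  · exact h5 h7

/-- the prime of a place of `ℚ` -/
lemma place_q (v : HeightOneSpectrum (𝓞 ℚ)) : ∃ l : ℕ, l.Prime ∧ Ideal.absNorm v.asIdeal = l ∧
    (l : 𝓞 ℚ) ∈ v.asIdeal ∧ ∀ A B : ℤ, pp (A : 𝓞 ℚ) (B : 𝓞 ℚ) v =
      Nat.card {P : ZMod l × ZMod l // P.2 ^ 2 = P.1 ^ 3 + (A : ZMod l) * P.1 + (B : ZMod l)} := by
  have hc : Ideal.absNorm v.asIdeal = Nat.card (𝓞 ℚ ⧸ v.asIdeal) := by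
    rw [Ideal.absNorm_apply, Submodule.cardQuot_apply]
  have hne : Ideal.absNorm v.asIdeal ≠ 0 := Ideal.absNorm_ne_zero_iff_mem_nonZeroDivisors.2
    (mem_nonZeroDivisors_of_ne_zero v.ne_bot)
  have hfin : Finite (𝓞 ℚ ⧸ v.asIdeal) := Nat.finite_of_card_ne_zero (by rw [← hc]; exact hne)
  have hp := v.isPrime
  obtain ⟨l, hl⟩ := CharP.exists (𝓞 ℚ ⧸ v.asIdeal)
  have hlp : l.Prime := CharP.char_prime_of_ne_zero (𝓞 ℚ ⧸ v.asIdeal)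
    (CharP.char_ne_zero_of_finite (𝓞 ℚ ⧸ v.asIdeal) l)
  have hlv : (l : 𝓞 ℚ) ∈ v.asIdeal := by
    rw [← Ideal.Quotient.eq_zero_iff_mem, map_natCast]
    exact CharP.cast_eq_zero _ _
  have hd : Ideal.absNorm v.asIdeal ∣ l := by
    have h1 := Ideal.absNorm_dvd_absNorm_of_le ((Ideal.span_singleton_le_iff_mem _).2 hlv)
    rw [Ideal.absNorm_span_natCast, NumberField.RingOfIntegers.rank, Module.finrank_self,
      pow_one] at h1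
    exact h1
  have hn1 : Ideal.absNorm v.asIdeal ≠ 1 := fun h => v.isPrime.ne_top (Ideal.absNorm_eq_one_iff.1 h)
  have hn : Ideal.absNorm v.asIdeal = l := (hlp.eq_one_or_self_of_dvd _ hd).resolve_left hn1
  refine ⟨l, hlp, hn, hlv, fun A B => ?_⟩
  have : Fintype (𝓞 ℚ ⧸ v.asIdeal) := Fintype.ofFinite _
  let e : ZMod l ≃+* 𝓞 ℚ ⧸ v.asIdeal := ZMod.ringEquiv _ (by rw [← Nat.card_eq_fintype_card, ← hc, hn])
  refine Nat.card_congr (Equiv.subtypeEquiv (e.symm.toEquiv.prodCongr e.symm.toEquiv) ?_)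
  rintro ⟨x, y⟩
  show y ^ 2 = x ^ 3 + Ideal.Quotient.mk v.asIdeal (A : 𝓞 ℚ) * x +
    Ideal.Quotient.mk v.asIdeal (B : 𝓞 ℚ) ↔
    (e.symm y) ^ 2 = (e.symm x) ^ 3 + (A : ZMod l) * e.symm x + (B : ZMod l)
  rw [map_intCast, map_intCast, ← e.symm.injective.eq_iff]
  rw [map_add, map_add, map_mul, map_pow, map_pow, map_intCast, map_intCast]

/-- a place of `ℚ` is determined by its norm -/
lemma place_inj {v w : HeightOneSpectrum (𝓞 ℚ)} (h : Ideal.absNorm v.asIdeal = Ideal.absNorm w.asIdeal) :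
    v = w := by
  have key : ∀ u : HeightOneSpectrum (𝓞 ℚ), ∀ l : ℕ, Ideal.absNorm u.asIdeal = l →
      u.asIdeal = Ideal.span {(l : 𝓞 ℚ)} := by
    intro u l hu
    obtain ⟨l', hl', hn, hlv, -⟩ := place_q u
    have e : l' = l := by rw [← hn, hu]
    subst e
    have hle : Ideal.span {((l' : ℕ) : 𝓞 ℚ)} ≤ u.asIdeal := (Ideal.span_singleton_le_iff_mem _).2 hlv
    obtain ⟨J, hJ⟩ := Ideal.dvd_iff_le.2 hle
    have h1 : Ideal.absNorm (Ideal.span {((l' : ℕ) : 𝓞 ℚ)}) = l' := by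
      rw [Ideal.absNorm_span_natCast, NumberField.RingOfIntegers.rank, Module.finrank_self, pow_one]
    rw [hJ, map_mul, hn] at h1
    have h2 : Ideal.absNorm J = 1 := by
      have h3 : l' * Ideal.absNorm J = l' * 1 := by rw [h1, mul_one]
      exact Nat.eq_of_mul_eq_mul_left hl'.pos h3
    rw [hJ, Ideal.absNorm_eq_one_iff.1 h2, Ideal.mul_top]
  apply HeightOneSpectrum.ext
  exact (key v _ h).trans (key w _ rfl).symm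

/-- the conditions on the prime `l` -/
def Cnd (A B : ℤ) (N : ℕ) (Q : Finset ℕ) (l : ℕ) : Prop :=
  l.Prime ∧ l % 2 ^ (N + 1) = 1 ∧ ¬ (l : ℤ) ∣ 2 * (4 * A ^ 3 + 27 * B ^ 2) ∧
    Even (Nat.card {P : ZMod l × ZMod l //
      P.2 ^ 2 = P.1 ^ 3 + (A : ZMod l) * P.1 + (B : ZMod l)}) ∧
    ∀ q ∈ Q, ∃ x : ZMod l, x ^ 2 ^ (N + 1) = q

/-- **The primes.** -/
theorem exists_primes {A B : ℤ} (hΔ : 4 * A ^ 3 + 27 * B ^ 2 ≠ 0)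
    (hirr : ∀ x : ℚ, x ^ 3 + A * x + B ≠ 0) (N : ℕ) (Q : Finset ℕ) :
    ∃ d : ℝ, 0 < d ∧ ∀ᶠ X : ℕ in atTop,
      d * Nat.primeCounting X ≤ {l : ℕ | l ≤ X ∧ Cnd A B N Q l}.ncard := by
  have hD : ∀ i : Unit, 4 * ((fun _ : Unit => (A : 𝓞 ℚ)) i) ^ 3 +
      27 * ((fun _ : Unit => (B : 𝓞 ℚ)) i) ^ 2 ≠ 0 := by
    intro i
    have : ((4 * A ^ 3 + 27 * B ^ 2 : ℤ) : 𝓞 ℚ) ≠ 0 := Int.cast_ne_zero.2 hΔ
    push_cast at this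
    exact this
  have hc : ∀ z : ℤ, (((z : 𝓞 ℚ)) : ℚ) = z := fun z => map_intCast (algebraMap (𝓞 ℚ) ℚ) z
  have h1 := adm_inf_one (K := ℚ) (J := Unit) hD (by
    intro i x
    show x ^ 3 + (((A : 𝓞 ℚ)) : ℚ) * x + (((B : 𝓞 ℚ)) : ℚ) ≠ 0
    rw [hc, hc]
    exact hirr x)
  obtain ⟨v₀, hv₀⟩ := h1.nonempty
  have hv := hv₀ ()
  have h2 : (2 : 𝓞 ℚ) ∉ v₀.asIdeal := fun h => hv.1 (v₀.asIdeal.mul_mem_right _ h)
  have hA : ∀ j : Unit, Adp ((fun _ : Unit => (A : 𝓞 ℚ)) j) ((fun _ : Unit => (B : 𝓞 ℚ)) j) 2 v₀ := by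
    intro j
    refine ⟨fun h => ?_, ?_⟩
    · have hp := v₀.isPrime
      have e : (2 : 𝓞 ℚ) * ((2 : ℕ) : 𝓞 ℚ) * (4 * (A : 𝓞 ℚ) ^ 3 + 27 * (B : 𝓞 ℚ) ^ 2) =
        2 * (2 * (4 * (A : 𝓞 ℚ) ^ 3 + 27 * (B : 𝓞 ℚ) ^ 2)) := by push_cast; ring
      have h' : (2 : 𝓞 ℚ) * (2 * (4 * (A : 𝓞 ℚ) ^ 3 + 27 * (B : 𝓞 ℚ) ^ 2)) ∈ v₀.asIdeal := by
        rw [← e]; exact h
      rcases hp.mem_or_mem h' with h | h
      · exact h2 h
      · exact hv.1 h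
    · obtain ⟨k, hk⟩ := K4H55.BD.pv_even (a := (A : 𝓞 ℚ)) (b := (B : 𝓞 ℚ)) h2 hv.2
      have hk' : pp (A : 𝓞 ℚ) (B : 𝓞 ℚ) v₀ = 2 * k := hk
      show ¬ 2 ∣ pp (A : 𝓞 ℚ) (B : 𝓞 ℚ) v₀ + 1
      omega
  obtain ⟨d, hd, h⟩ := dens_pow1 (K := ℚ) (J := Unit) (p := 2) hD Nat.prime_two (odd_norm h2) hA
    (by exact_mod_cast h2) (N + 1) Q
  refine ⟨d, hd, h.mono fun X hX => hX.trans ?_⟩
  have hfin : {l : ℕ | l ≤ X ∧ Cnd A B N Q l}.Finite := (Set.finite_Iic X).subset fun l hl => hl.1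
  refine Nat.cast_le.2 (Set.ncard_le_ncard_of_injOn (fun v => Ideal.absNorm v.asIdeal) ?_
    (fun v _ w _ hvw => place_inj hvw) hfin)
  rintro v ⟨hvX, hvS⟩
  obtain ⟨l, hl, hn, hlv, hpp⟩ := place_q v
  obtain ⟨h4, h5⟩ := hvS
  obtain ⟨h6, h7⟩ := h5 l hl hn
  have h8 := h4 ()
  show Ideal.absNorm v.asIdeal ≤ X ∧ Cnd A B N Q (Ideal.absNorm v.asIdeal)
  rw [hn] at hvX ⊢
  refine ⟨hvX, hl, ?_, ?_, ?_, h7⟩
  · have h9 : ((l : ℕ) : ZMod (2 ^ (N + 1))) = ((1 : ℕ) : ZMod (2 ^ (N + 1))) := by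
      rw [h6, Nat.cast_one]
    rw [ZMod.natCast_eq_natCast_iff'] at h9
    rw [h9]
    exact Nat.mod_eq_of_lt (Nat.one_lt_two_pow (by omega))
  · intro hdv
    apply h8.1
    obtain ⟨k, hk⟩ := hdv
    have e : (2 : 𝓞 ℚ) * ((2 : ℕ) : 𝓞 ℚ) * (4 * (A : 𝓞 ℚ) ^ 3 + 27 * (B : 𝓞 ℚ) ^ 2) =
        (l : 𝓞 ℚ) * (2 * (k : 𝓞 ℚ)) := by
      have h9 : ((2 * (4 * A ^ 3 + 27 * B ^ 2) : ℤ) : 𝓞 ℚ) = (((l : ℤ) * k : ℤ) : 𝓞 ℚ) := by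
        rw [hk]
      push_cast at h9 ⊢
      linear_combination 2 * h9
    show (2 : 𝓞 ℚ) * ((2 : ℕ) : 𝓞 ℚ) * (4 * (A : 𝓞 ℚ) ^ 3 + 27 * (B : 𝓞 ℚ) ^ 2) ∈ v.asIdeal
    rw [e]
    exact v.asIdeal.mul_mem_right _ hlv
  · rw [← hpp A B]
    have h9 := h8.2
    rw [Nat.even_iff]
    have h10 : ¬ 2 ∣ pp (A : 𝓞 ℚ) (B : 𝓞 ℚ) v + 1 := h9
    omega

end Pool.Agent.T9h30.BF
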