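import Pool.Agent.T9h30.BF.Spec
import Pool.Agent.T9h30.BF.Prm

/-!
# Cyclic extensions of `ℚ` of degree `2 ^ N` in which the bad primes split
-/

set_option autoImplicit false
set_option linter.all false

open NumberField IsDedekindDomain Filter WeierstrassCurve

namespace Pool.Agent.T9h30.BF

/-- the residue characteristic -/
lemma exists_char {K : Type} [Field K] [NumberField K] (v : HeightOneSpectrum (𝓞 K)) {n : ℤ}
    (hn : ((n : ℤ) : 𝓞 K) ∈ v.asIdeal) (hn0 : n ≠ 0) :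
    ∃ q : ℕ, q.Prime ∧ (q : ℤ) ∣ n ∧ (q : 𝓞 K) ∈ v.asIdeal := by
  have hc : Ideal.absNorm v.asIdeal = Nat.card (𝓞 K ⧸ v.asIdeal) := by
    rw [Ideal.absNorm_apply, Submodule.cardQuot_apply]
  have hne : Ideal.absNorm v.asIdeal ≠ 0 := Ideal.absNorm_ne_zero_iff_mem_nonZeroDivisors.2
    (mem_nonZeroDivisors_of_ne_zero v.ne_bot)
  have hfin : Finite (𝓞 K ⧸ v.asIdeal) := Nat.finite_of_card_ne_zero (by rw [← hc]; exact hne)
  have hp := v.isPrime
  obtain ⟨l, hl⟩ := CharP.exists (𝓞 K ⧸ v.asIdeal)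
  have hlp : l.Prime := CharP.char_prime_of_ne_zero (𝓞 K ⧸ v.asIdeal)
    (CharP.char_ne_zero_of_finite (𝓞 K ⧸ v.asIdeal) l)
  refine ⟨l, hlp, ?_, ?_⟩
  · rw [← CharP.intCast_eq_zero_iff (𝓞 K ⧸ v.asIdeal) l, ← map_intCast (Ideal.Quotient.mk v.asIdeal)]
    exact Ideal.Quotient.eq_zero_iff_mem.2 hn
  · rw [← Ideal.Quotient.eq_zero_iff_mem, map_natCast]
    exact CharP.cast_eq_zero _ _

/-- an odd group of points: no rational root -/
lemma no_root {A B : ℤ} (hΔ : 4 * A ^ 3 + 27 * B ^ 2 ≠ 0)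
    (hodd : Odd (Nat.card ((⟨0, 0, 0, A, B⟩ : WeierstrassCurve ℤ).map
      (Int.castRingHom ℚ)).toAffine.Point)) (x : ℚ) : x ^ 3 + A * x + B ≠ 0 := by
  intro hx
  set W := (⟨0, 0, 0, A, B⟩ : WeierstrassCurve ℤ).map (Int.castRingHom ℚ) with hW
  have hD : W.Δ ≠ 0 := by
    rw [hW, WeierstrassCurve.map_Δ]
    have e : (⟨0, 0, 0, A, B⟩ : WeierstrassCurve ℤ).Δ = -16 * (4 * A ^ 3 + 27 * B ^ 2) := by
      simp only [WeierstrassCurve.Δ, WeierstrassCurve.b₂, WeierstrassCurve.b₄, WeierstrassCurve.b₆,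
        WeierstrassCurve.b₈]
      ring
    rw [e]
    have h1 : (-16 * (4 * A ^ 3 + 27 * B ^ 2) : ℤ) ≠ 0 := mul_ne_zero (by norm_num) hΔ
    exact (map_ne_zero_iff _ (RingHom.injective_int _)).2 h1
  have heq : W.toAffine.Equation x 0 := by
    rw [WeierstrassCurve.Affine.equation_iff]
    simp only [hW, WeierstrassCurve.map, map_zero, eq_intCast]
    linear_combination -hx
  have hns : W.toAffine.Nonsingular x 0 :=
    (WeierstrassCurve.Affine.equation_iff_nonsingular_of_Δ_ne_zero hD).1 heq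
  set P : W.toAffine.Point := WeierstrassCurve.Affine.Point.some x 0 hns with hP
  have hP0 : P ≠ 0 := by
    intro h
    rw [hP, WeierstrassCurve.Affine.Point.zero_def] at h
    cases h
  have hneg : -P = P := by
    rw [hP, WeierstrassCurve.Affine.Point.neg_some]
    congr 1
    simp [WeierstrassCurve.Affine.negY, hW, WeierstrassCurve.map]
  have h2 : 2 • P = 0 := by
    rw [two_nsmul]
    nth_rewrite 1 [← hneg]
    exact neg_add_cancel P
  have hfin : Finite W.toAffine.Point := Nat.finite_of_card_ne_zero (by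
    intro h
    rw [h] at hodd
    exact absurd hodd (by decide))
  have h3 : addOrderOf P = 2 := addOrderOf_eq_prime h2 hP0
  have h4 : 2 ∣ Nat.card W.toAffine.Point := by
    rw [← h3]
    exact addOrderOf_dvd_natCard P
  rw [← Nat.not_even_iff_odd] at hodd
  exact hodd ((even_iff_two_dvd).2 h4)

lemma disc_eq (A B : ℤ) : (⟨0, 0, 0, A, B⟩ : WeierstrassCurve ℤ).Δ =
    -16 * (4 * A ^ 3 + 27 * B ^ 2) := by
  simp only [WeierstrassCurve.Δ, WeierstrassCurve.b₂, WeierstrassCurve.b₄, WeierstrassCurve.b₆,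
    WeierstrassCurve.b₈]
  ring

/-- the fields -/
theorem many (hcyc : StCyc) {A B : ℤ} (hΔ : 4 * A ^ 3 + 27 * B ^ 2 ≠ 0)
    (hirr : ∀ x : ℚ, x ^ 3 + A * x + B ≠ 0) (N : ℕ) :
    ∃ d : ℝ, 0 < d ∧ ∀ᶠ X : ℕ in atTop, d * Nat.primeCounting X ≤ {l : ℕ | l ≤ X ∧ l.Prime ∧
      ∃ (K : Type) (_ : Field K) (_ : NumberField K),
      IsGalois ℚ K ∧ IsCyclic (K ≃ₐ[ℚ] K) ∧ Module.finrank ℚ K = 2 ^ N ∧
      (∀ q : ℕ, q.Prime → (q : ℤ) ∣ NumberField.discr K → q = l) ∧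
      (¬ (l : ℤ) ∣ 2 * (⟨0, 0, 0, A, B⟩ : WeierstrassCurve ℤ).Δ ∧
        Odd (Nat.card {P : ZMod l × ZMod l //
          ((⟨0, 0, 0, A, B⟩ : WeierstrassCurve ℤ).map (Int.castRingHom (ZMod l))).toAffine.Equation
            P.1 P.2} + 1)) ∧
      (∀ v : HeightOneSpectrum (𝓞 K),
        ((2 * (⟨0, 0, 0, A, B⟩ : WeierstrassCurve ℤ).Δ : ℤ) : 𝓞 K) ∈ v.asIdeal →
        (Ideal.absNorm v.asIdeal).Prime) ∧ ∀ w : InfinitePlace K, w.IsReal}.ncard := by
  have hD0 : (2 * (⟨0, 0, 0, A, B⟩ : WeierstrassCurve ℤ).Δ : ℤ) ≠ 0 := by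
    rw [disc_eq]
    exact mul_ne_zero two_ne_zero (mul_ne_zero (by norm_num) hΔ)
  obtain ⟨d, hd, h⟩ := exists_primes hΔ hirr N
    (2 * (⟨0, 0, 0, A, B⟩ : WeierstrassCurve ℤ).Δ).natAbs.primeFactors
  refine ⟨d, hd, h.mono fun X hX => hX.trans (Nat.cast_le.2 (Set.ncard_le_ncard ?_
    ((Set.finite_Iic X).subset fun l hl => hl.1)))⟩
  rintro l ⟨hlX, hl, hl1, hl2, hl3, hl4⟩
  obtain ⟨K, _, _, hG, hdeg, hcy, hram, hspl, hreal⟩ := hcyc N l hl hl1
  have hlodd : l ≠ 2 := by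
    rintro rfl
    rw [pow_succ] at hl1
    have h1 : 2 % (2 ^ N * 2) % 2 = 2 % 2 := Nat.mod_mod_of_dvd 2 (Dvd.intro_left _ rfl)
    rw [hl1] at h1
    omega
  have hnd : ¬ (l : ℤ) ∣ 2 * (⟨0, 0, 0, A, B⟩ : WeierstrassCurve ℤ).Δ := by
    rw [disc_eq]
    intro h
    have hp : Prime (l : ℤ) := Nat.prime_iff_prime_int.1 hl
    have e : (2 * (-16 * (4 * A ^ 3 + 27 * B ^ 2)) : ℤ) =
        (-16) * (2 * (4 * A ^ 3 + 27 * B ^ 2)) := by ring
    rw [e] at h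
    rcases hp.dvd_or_dvd h with h | h
    · have h16 : (l : ℤ) ∣ 2 ^ 4 := by
        have h5 := (dvd_neg.2 h)
        norm_num at h5 ⊢
        exact h5
      have h5 := hp.dvd_of_dvd_pow h16
      have h6 : l ∣ 2 := by exact_mod_cast h5
      exact hlodd ((Nat.prime_dvd_prime_iff_eq hl Nat.prime_two).1 h6)
    · exact hl2 h
  refine ⟨hlX, hl, K, inferInstance, inferInstance, hG, hcy, hdeg, hram, ⟨hnd, ?_⟩, fun v hv => ?_,
    hreal⟩
  · have e : Nat.card {P : ZMod l × ZMod l //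
        ((⟨0, 0, 0, A, B⟩ : WeierstrassCurve ℤ).map (Int.castRingHom (ZMod l))).toAffine.Equation
          P.1 P.2} = Nat.card {P : ZMod l × ZMod l //
        P.2 ^ 2 = P.1 ^ 3 + (A : ZMod l) * P.1 + (B : ZMod l)} := by
      refine Nat.card_congr (Equiv.subtypeEquivRight fun P => ?_)
      rw [WeierstrassCurve.Affine.equation_iff]
      simp only [WeierstrassCurve.map, map_zero, eq_intCast, zero_mul, add_zero]
    rw [e]
    exact hl3.add_one
  · obtain ⟨q, hq, hqd, hqv⟩ := exists_char v hv hD0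
    have hql : q ≠ l := by
      rintro rfl
      exact hnd hqd
    have hqm : q ∈ (2 * (⟨0, 0, 0, A, B⟩ : WeierstrassCurve ℤ).Δ).natAbs.primeFactors := by
      rw [Nat.mem_primeFactors]
      exact ⟨hq, Int.natCast_dvd.1 hqd, Int.natAbs_ne_zero.2 hD0⟩
    obtain ⟨x, hx⟩ := hl4 q hqm
    rw [hspl q hq hql ⟨x ^ 2, by rw [← pow_mul, ← pow_succ']; exact hx⟩ v hqv]
    exact hq

end Pool.Agent.T9h30.BF
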