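import Mathlib

/-!
# Cyclic extensions of `ℚ` of degree `2 ^ N` ramified at one prime
-/

set_option autoImplicit false

open NumberField IsDedekindDomain

namespace Pool.Agent.T9h30.BF

/-- Piece (CYC).  Let `l` be a prime with `l = 1` modulo `2 ^ (N + 1)`.  There is a cyclic extension `K` of
`ℚ` of degree `2 ^ N`, ramified only at `l`, totally real, in which all primes `q ≠ l` split
completely which are `2 ^ N`-th powers modulo `l`.

Proof: `C = ℚ(ζ_l)`, `Gal (C / ℚ) = (ZMod l)ˣ`; `H` = the subgroup of the `2 ^ N`-th powers, of index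
`2 ^ N`; `K = C^H`.  The discriminant of `K` divides that of `C` (`NumberField.discr_dvd_discr`), a power of
`l` up to sign.  Let `q` be a `2 ^ N`-th power modulo `l`, `w` a prime of `C` above `v ∋ q`;
`σ_q : ζ ↦ ζ ^ q` is in `H`, and `σ_q x = x ^ q` modulo `w` for all `x ∈ ℤ[ζ]`; so `x ^ q = x` modulo `v` for
all `x ∈ 𝓞 K`, the residue field has at most `q` elements.  As `-1` is a `2 ^ N`-th power modulo `l`, complex
conjugation fixes `K`. -/
def StCyc : Prop := ∀ (N l : ℕ), l.Prime → l % 2 ^ (N + 1) = 1 →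
  ∃ (K : Type) (_ : Field K) (_ : NumberField K), IsGalois ℚ K ∧ Module.finrank ℚ K = 2 ^ N ∧
    IsCyclic (K ≃ₐ[ℚ] K) ∧
    (∀ q : ℕ, q.Prime → (q : ℤ) ∣ NumberField.discr K → q = l) ∧
    (∀ q : ℕ, q.Prime → q ≠ l → (∃ x : ZMod l, x ^ 2 ^ N = q) →
      ∀ v : HeightOneSpectrum (𝓞 K), (q : 𝓞 K) ∈ v.asIdeal → Ideal.absNorm v.asIdeal = q) ∧
    ∀ w : InfinitePlace K, w.IsReal

end Pool.Agent.T9h30.BF
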