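import Mathlib
import Pool.Agent.R425.D.Thm
import Pool.Agent.T9h37.BK.Main

/-!
# The conjecture of Bloch and Kato for the motives `h¹(E)(1) ⊗ M`, all Artin motives `M` over Galois
# 2-extensions, `p = 2`

Let `E` be an elliptic curve over `ℚ`, given by an integral equation, with trivial 2-Selmer group over
`ℚ` (for instance `X_0(11)`).  Let `K` be any Galois extension of `ℚ` of degree a power of two (which
need not be abelian), ramified only at primes `l` of good reduction such that the number of points of
`E` over `ℤ/l` is odd, and in which the primes dividing `2 Δ` split completely (and which is totally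
real if `Δ > 0`).

Let `M = ℤ ^ g` be any lattice of any rank `g` with an action `R` of the Galois group of `K / ℚ`, and
let `A = E ⊗ M`, an abelian variety over `ℚ` of dimension `g`.  All the Artin motives over `ℚ` (with
rational coefficients) that are trivial over `K` are of the form `M ⊗ ℚ`, and `h¹(A^∨)(1)` is the
motive `h¹(E)(1) ⊗ M`.  We prove: `A(ℚ)` is finite, so `A(ℚ) ⊗ ℚ_2 = 0`, and `H¹_f(ℚ, V_2 A) = 0`.  So
the Abel–Jacobi map of this motive is an isomorphism onto `H¹_f`, for `p = 2`.

`H1fA 2 W R` is the group of the classes of the continuous cocycles of the absolute Galois group of `ℚ`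
with values in `V_2 A` whose restriction to the completion of `ℚ` at every place is in the image of the
local Kummer map; this is the condition of Bloch and Kato.

The proof.  By the results on 2-Selmer groups over Galois 2-extensions (`Pool/Agent/R425`, and the
files imported there) `E(K)` is finite and `Ш(E/K)[2^∞] = 0`.  The restriction of a cocycle to the
absolute Galois group of `K` is a coboundary at all finite levels; by averaging over the cosets the
cocycle itself is a coboundary at all finite levels, and so it is a coboundary by a compactness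
argument.
-/

set_option autoImplicit false

open IsDedekindDomain NumberField WeierstrassCurve

open scoped Classical

namespace Pool.Agent.Results.MP_009fd8_ag.TwoExtensionLattices

open Pool.Agent.TH841.NF.D (Sha)
open Pool.Agent.TH841.SH.D (Gal)
open Pool.Agent.Y702.A (ptsA)
open Pool.Agent.Y667.BKP (H1f)
open Pool.Agent.T9h37.BK (H1fA)

/-- The 2-Selmer group of `W` over `ℚ` is trivial: `W(ℚ)` is finite of odd order and `Ш(W/ℚ)` has no
element of order two. -/
def TrivialTwoSelmer (W : WeierstrassCurve ℤ) : Prop :=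
  Finite (W.map (Int.castRingHom ℚ)).toAffine.Point ∧
  Odd (Nat.card (W.map (Int.castRingHom ℚ)).toAffine.Point) ∧
  ∀ s : Sha (W.map (Int.castRingHom ℚ)), 2 • s = 0 → s = 0

/-- The number of the points of `W` over `ℤ/l`, with the point at infinity. -/
noncomputable def pointCount (W : WeierstrassCurve ℤ) (l : ℕ) : ℕ :=
  Nat.card {P : ZMod l × ZMod l //
    (W.map (Int.castRingHom (ZMod l))).toAffine.Equation P.1 P.2} + 1

/-- `K` is a Galois extension of `ℚ` of degree a power of two, ramified only at primes `l ∤ 2 Δ` such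
that the number of the points of the curve over `ℤ/l` is odd; the prime ideals containing `2 Δ` have
residue degree one (and, `K` being Galois and unramified at them, these primes split completely); and
if the discriminant is positive then `K` is totally real. -/
structure IsTwoExtension (W : WeierstrassCurve ℤ) (K : Type) [Field K] [NumberField K] : Prop where
  galois : IsGalois ℚ K
  degree : ∃ j, Module.finrank ℚ K = 2 ^ j
  ramified : ∀ l : ℕ, l.Prime → (l : ℤ) ∣ NumberField.discr K →
    ¬ (l : ℤ) ∣ 2 * W.Δ ∧ Odd (pointCount W l)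
  split : ∀ v : HeightOneSpectrum (𝓞 K), ((2 * W.Δ : ℤ) : 𝓞 K) ∈ v.asIdeal →
    (Ideal.absNorm v.asIdeal).Prime
  real : 0 < W.Δ → ∀ v : InfinitePlace K, v.IsReal

/-- `R` is an action of the Galois group of `K / ℚ` on the lattice `ℤ ^ g`: it is trivial on the
automorphisms that fix the image of `K` in the algebraic closure of `ℚ`. -/
def SplitBy (K : Type) [Field K] {g : ℕ} (R : Gal ℚ →* GL (Fin g) ℤ) : Prop :=
  ∃ e : K →+* AlgebraicClosure ℚ, ∀ σ : Gal ℚ, (∀ x : K, σ (e x) = e x) → R σ = 1

/-- `W(K) ⊗ ℚ_2` and `H¹_f(K, V_2 W)` are zero. -/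
def BothZero {K : Type} [Field K] [NumberField K] (W : WeierstrassCurve K) : Prop :=
  (∀ x : TensorProduct ℤ W.toAffine.Point ℚ_[2], x = 0) ∧ ∀ x : H1f 2 W, x = 0

/-- `A(ℚ) ⊗ ℚ_2` and `H¹_f(ℚ, V_2 A)` are zero, `A = W ⊗ ℤ ^ g`. -/
def BothZeroTensor {g : ℕ} (W : WeierstrassCurve ℤ) (R : Gal ℚ →* GL (Fin g) ℤ) : Prop :=
  (∀ x : TensorProduct ℤ (ptsA W R) ℚ_[2], x = 0) ∧ ∀ x : H1fA 2 W R, x = 0

/-- The curve `y² = x³ - 13392 x - 1080432`, a short equation of `X_0(11)`. -/
def X11 : WeierstrassCurve ℤ := ⟨0, 0, 0, -13392, -1080432⟩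

/-- **Main theorem.**  Let `W` have trivial 2-Selmer group over `ℚ` and let `K` be such a Galois
2-extension.  Then `W(K) ⊗ ℚ_2` and `H¹_f(K, V_2 W)` are zero, and for all the lattices of any rank `g`
with an action of the Galois group of `K / ℚ`, `A = W ⊗ ℤ ^ g`, `A(ℚ) ⊗ ℚ_2` and `H¹_f(ℚ, V_2 A)` are
zero.  The curve `X_0(11)` satisfies the hypotheses. -/
theorem result :
    (∀ W : WeierstrassCurve ℤ, W.Δ ≠ 0 → TrivialTwoSelmer W →
      ∀ (K : Type) [Field K] [NumberField K], IsTwoExtension W K →
        BothZero (W.map (Int.castRingHom K)) ∧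
        ∀ (g : ℕ) (R : Gal ℚ →* GL (Fin g) ℤ), SplitBy K R → BothZeroTensor W R) ∧
    (X11.Δ ≠ 0 ∧ TrivialTwoSelmer X11) := by
  refine ⟨fun W hΔ hT K _ _ hK => ?_, Pool.Agent.R425.D.disc11, Pool.Agent.R425.D.sel11s⟩
  have hK' : Pool.Agent.R425.D.TwoExt (fun _ : Fin 1 => W) K := by
    refine ⟨hK.galois, hK.degree, fun l hl hd => ?_, fun v hv => hK.split v ?_,
      fun _ h => hK.real h⟩
    · obtain ⟨h1, h2⟩ := hK.ramified l hl hd
      refine ⟨by simpa using h1, fun _ => h2⟩
    · simpa using hv
  obtain ⟨h1, h2, -⟩ := hK'.sel (fun _ => hΔ) (fun _ => hT) 0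
  have key : ∀ (k : ℕ) (s : Sha (W.map (Int.castRingHom K))), (2 ^ k : ℕ) • s = 0 →
      (2 ^ 0 : ℕ) • s = 0 := by
    intro k s hs
    rw [Pool.Agent.Y65.Sham.no_two h1 k s hs, smul_zero]
  have h2' : Finite (W.map (Int.castRingHom K)).toAffine.Point := h2
  refine ⟨⟨Pool.Agent.Y667.BKP.tensor_zero 2, Pool.Agent.Y667.BKP.h1f_zero Nat.prime_two h2' 0 key⟩,
    fun g R hR => ?_⟩
  obtain ⟨e, he⟩ := hR
  obtain ⟨h3, h4⟩ := Pool.Agent.T9h37.BK.zeroA Nat.prime_two W K hK.galois 0 key h2' g R e he
  exact ⟨Pool.Agent.Y667.BKP.tensor_zero 2, h4⟩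

end Pool.Agent.Results.MP_009fd8_ag.TwoExtensionLattices
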